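import Mathlib

/-! Numbers attached to the simple symmetric random walk: point probabilities `B j h = P(S_j = h)`,
first passage probabilities `f j h`, hitting time theorem, reflection principle, bounds. -/

namespace Pool.Agent.R974.FP

open Real

/-- `B j h = P(S_j = h)`. -/
noncomputable def B : ℕ → ℤ → ℝ
  | 0, h => if h = 0 then 1 else 0
  | (j+1), h => (B j (h-1) + B j (h+1))/2

/-- `f j h` is the probability that the walk reaches `-h` for the first time at time `j`. -/
noncomputable def f : ℕ → ℤ → ℝ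
  | 0, h => if h = 0 then 1 else 0
  | (j+1), h => if h ≤ 0 then 0 else (f j (h-1) + f j (h+1))/2

theorem B_succ (j : ℕ) (h : ℤ) : B (j+1) h = (B j (h-1) + B j (h+1))/2 := rfl

theorem B_nonneg : ∀ (j : ℕ) (h : ℤ), 0 ≤ B j h
  | 0, h => by unfold B; split_ifs <;> norm_num
  | (j+1), h => by
      rw [B_succ]
      have h1 := B_nonneg j (h-1)
      have h2 := B_nonneg j (h+1)
      positivity

theorem f_nonneg : ∀ (j : ℕ) (h : ℤ), 0 ≤ f j h
  | 0, h => by unfold f; split_ifs <;> norm_num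
  | (j+1), h => by
      unfold f
      have h1 := f_nonneg j (h-1)
      have h2 := f_nonneg j (h+1)
      split_ifs
      · exact le_refl _
      · positivity

theorem f_succ_nonpos (j : ℕ) {h : ℤ} (hh : h ≤ 0) : f (j+1) h = 0 := by
  unfold f; simp [hh]

theorem f_succ_pos (j : ℕ) {h : ℤ} (hh : 0 < h) : f (j+1) h = (f j (h-1) + f j (h+1))/2 := by
  rw [f]; simp [not_le.mpr hh]

theorem B_symm : ∀ (j : ℕ) (h : ℤ), B j (-h) = B j h
  | 0, h => by unfold B; simp
  | (j+1), h => by
      rw [B_succ, B_succ]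
      have h1 : B j (-h - 1) = B j (h+1) := by
        rw [← B_symm j (h+1)]; congr 1; ring
      have h2 : B j (-h + 1) = B j (h-1) := by
        rw [← B_symm j (h-1)]; congr 1; ring
      rw [h1, h2]; ring

theorem B_out : ∀ (j : ℕ) (h : ℤ), (j : ℤ) < |h| → B j h = 0
  | 0, h, hh => by
      have : h ≠ 0 := by
        intro h0; subst h0; simp at hh
      unfold B; simp [this]
  | (j+1), h, hh => by
      have h1 : (j : ℤ) < |h - 1| := by
        push_cast at hh
        rcases abs_cases h with ⟨e, _⟩ | ⟨e, _⟩ <;> rcases abs_cases (h-1) with ⟨e', _⟩ | ⟨e', _⟩ <;>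
          omega
      have h2 : (j : ℤ) < |h + 1| := by
        push_cast at hh
        rcases abs_cases h with ⟨e, _⟩ | ⟨e, _⟩ <;> rcases abs_cases (h+1) with ⟨e', _⟩ | ⟨e', _⟩ <;>
          omega
      rw [B_succ, B_out j _ h1, B_out j _ h2]; simp

theorem B_parity : ∀ (j : ℕ) (h : ℤ), (h - j) % 2 ≠ 0 → B j h = 0
  | 0, h, hh => by
      have : h ≠ 0 := by
        intro h0; subst h0; simp at hh
      unfold B; simp [this]
  | (j+1), h, hh => by
      have h1 : (h - 1 - j) % 2 ≠ 0 := by push_cast at hh; omega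
      have h2 : (h + 1 - j) % 2 ≠ 0 := by push_cast at hh; omega
      rw [B_succ, B_parity j _ h1, B_parity j _ h2]; simp

/-- ratio relation -/
theorem B_ratio : ∀ (j : ℕ) (h : ℤ),
    ((j:ℝ) + 1 - h) * B j (h-1) = ((j:ℝ) + 1 + h) * B j (h+1)
  | 0, h => by
      unfold B
      by_cases h1 : h - 1 = 0
      · have : h = 1 := by omega
        subst this; simp
      · by_cases h2 : h + 1 = 0
        · have : h = -1 := by omega
          subst this; simp
        · simp [h1, h2]
  | (j+1), h => by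
      have e1 := B_ratio j (h-1)
      have e2 := B_ratio j (h+1)
      rw [B_succ, B_succ]
      have a1 : h - 1 + 1 = h := by ring
      have a2 : h + 1 - 1 = h := by ring
      rw [a1] at e1
      rw [a2] at e2
      rw [a1, a2]
      push_cast at e1 e2 ⊢
      linear_combination (1/2) * e1 + (1/2) * e2

theorem B_ratio' (j : ℕ) (h : ℤ) : ((j:ℝ) - h) * B j h = ((j:ℝ) + h + 2) * B j (h+2) := by
  have e := B_ratio j (h+1)
  have a1 : h + 1 - 1 = h := by ring
  have a2 : h + 1 + 1 = h + 2 := by ring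
  rw [a1, a2] at e
  push_cast at e
  linear_combination e

/-- `h P(S_{j+1}=h) = (j+1) (P(S_j = h-1) - P(S_j = h+1))/2`. -/
theorem hB (j : ℕ) (h : ℤ) :
    (h:ℝ) * B (j+1) h = ((j:ℝ)+1) * ((B j (h-1) - B j (h+1))/2) := by
  have e := B_ratio j h
  rw [B_succ]
  linear_combination (-1/2) * e

/-- reflection principle -/
theorem f_refl : ∀ (j : ℕ) (h : ℤ), 0 ≤ h → f (j+1) h = (B j (h-1) - B j (h+1))/2
  | 0, h, hh => by
      rcases eq_or_lt_of_le hh with h0 | h0
      · subst h0
        rw [f_succ_nonpos 0 (le_refl _)]; unfold B; simp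
      · rw [f_succ_pos 0 h0]
        unfold f B
        have : h + 1 ≠ 0 := by omega
        simp [this]
  | (j+1), h, hh => by
      rcases eq_or_lt_of_le hh with h0 | h0
      · subst h0
        rw [f_succ_nonpos (j+1) (le_refl _)]
        have := B_symm (j+1) 1
        simp only [zero_sub, zero_add]
        rw [this]; simp
      · rw [f_succ_pos (j+1) h0, f_refl j (h-1) (by omega), f_refl j (h+1) (by omega),
          B_succ, B_succ]
        have a1 : h - 1 + 1 = h := by ring
        have a2 : h + 1 - 1 = h := by ring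
        rw [a1, a2]; ring

/-- hitting time theorem -/
theorem hitting (j : ℕ) {h : ℤ} (hh : 0 ≤ h) : ((j:ℝ)+1) * f (j+1) h = h * B (j+1) h := by
  rw [hB, f_refl j h hh]

/-- telescoping form of `f_j(h) B_j(h)` -/
theorem fB (j : ℕ) {h : ℤ} (hh : 0 ≤ h) :
    f (j+1) h * B (j+1) h = ((B j (h-1))^2 - (B j (h+1))^2)/4 := by
  rw [f_refl j h hh, B_succ]; ring

/-! ### Gaussian bounds -/

/-- the central values -/
theorem B_mono (j : ℕ) {h : ℤ} (hh : 0 ≤ h + 1) : B j (h+2) ≤ B j h := by
  by_cases hj : (h:ℝ) ≤ j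
  · have e := B_ratio' j h
    have h1 := B_nonneg j (h+2)
    have h2 := B_nonneg j h
    have h3 : (0:ℝ) ≤ (h:ℝ) + 1 := by exact_mod_cast hh
    have h5 : 0 ≤ (j:ℝ) := Nat.cast_nonneg _
    by_contra hcon
    push Not at hcon
    have : ((j:ℝ) - h) * B j h ≤ ((j:ℝ) - h) * B j (h+2) :=
      mul_le_mul_of_nonneg_left hcon.le (by linarith)
    have h6 : 0 < B j (h+2) := lt_of_le_of_lt h2 hcon
    nlinarith
  · push Not at hj
    have hj' : (j:ℤ) < h + 2 := by
      have : (j:ℤ) < h := by exact_mod_cast hj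
      omega
    rw [B_out j (h+2) (lt_of_lt_of_le hj' (le_abs_self _))]
    exact B_nonneg _ _

/-- One step of the product formula, upper bound. -/
theorem B_step_upper (j : ℕ) {h : ℤ} (hh : 0 ≤ h) :
    B j (h+2) ≤ B j h * exp (-((h:ℝ)+1)/((j:ℝ)+1)) := by
  have h2 := B_nonneg j h
  by_cases hj : (h:ℝ) ≤ j
  · have e := B_ratio' j h
    have h3 : (0:ℝ) ≤ (h:ℝ) := by exact_mod_cast hh
    have h5 : 0 ≤ (j:ℝ) := Nat.cast_nonneg _
    have hpos : (0:ℝ) < (j:ℝ) + h + 2 := by linarith
    have e2 : B j (h+2) = B j h * (((j:ℝ) - h)/((j:ℝ)+h+2)) := by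
      field_simp
      linarith
    rw [e2]
    apply mul_le_mul_of_nonneg_left _ h2
    have h7 : ((j:ℝ) - h)/((j:ℝ)+h+2) = -((2*h+2)/((j:ℝ)+h+2)) + 1 := by
      field_simp; ring
    rw [h7]
    refine (add_one_le_exp _).trans ?_
    apply exp_le_exp.mpr
    have h8 : ((h:ℝ)+1)/((j:ℝ)+1) ≤ (2*h+2)/((j:ℝ)+h+2) := by
      rw [div_le_div_iff₀ (by linarith) hpos]
      nlinarith
    have h9 : -((h:ℝ)+1)/((j:ℝ)+1) = -(((h:ℝ)+1)/((j:ℝ)+1)) := by ring
    rw [h9]
    linarith
  · push Not at hj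
    have hj' : (j:ℤ) < h + 2 := by
      have : (j:ℤ) < h := by exact_mod_cast hj
      omega
    rw [B_out j (h+2) (lt_of_lt_of_le hj' (le_abs_self _))]
    positivity

/-- Gaussian upper bound along a parity class. -/
theorem B_gauss (j : ℕ) {h0 : ℤ} (hh : 0 ≤ h0) : ∀ k : ℕ,
    B j (h0 + 2*k) ≤ B j h0 * exp (-(((h0:ℝ) + 2*k)^2 - (h0:ℝ)^2)/(4*((j:ℝ)+1)))
  | 0 => by simp
  | (k+1) => by
      have ih := B_gauss j hh k
      have hs := B_step_upper j (h := h0 + 2*k) (by positivity)
      have a1 : h0 + 2*((k+1:ℕ):ℤ) = h0 + 2*(k:ℤ) + 2 := by push_cast; ring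
      rw [a1]
      refine hs.trans ?_
      refine (mul_le_mul_of_nonneg_right ih (exp_pos _).le).trans ?_
      rw [mul_assoc, ← exp_add]
      apply mul_le_mul_of_nonneg_left _ (B_nonneg _ _)
      apply exp_le_exp.mpr
      have h5 : 0 ≤ (j:ℝ) := Nat.cast_nonneg _
      have h6 : (0:ℝ) < (j:ℝ)+1 := by linarith
      push_cast
      apply le_of_eq
      field_simp
      ring

end Pool.Agent.R974.FP
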