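import Mathlib
import Pool.Agent.R974.FP.A

/-! Central values (Wallis), bounds on `f`. -/

namespace Pool.Agent.R974.FP

open Real

theorem B_even_step (k : ℕ) : B (2*k+2) 0 = (2*(k:ℝ)+1)/(2*k+2) * B (2*k) 0 := by
  have e1 : B (2*k+2) 0 = B (2*k+1) 1 := by
    rw [B_succ (2*k+1) 0]
    have := B_symm (2*k+1) 1
    simp only [zero_sub, zero_add]
    rw [this]; ring
  have e2 : B (2*k+1) 1 = (B (2*k) 0 + B (2*k) 2)/2 := by
    rw [B_succ (2*k) 1]; norm_num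
  have e3 := B_ratio' (2*k) 0
  simp only [zero_add] at e3
  push_cast at e3
  rw [e1, e2]
  have hk : (0:ℝ) ≤ k := Nat.cast_nonneg _
  have h2 : (0:ℝ) < 2*k+2 := by linarith
  have e4 : B (2*k) 2 = (2*k)/(2*k+2) * B (2*k) 0 := by
    field_simp
    linarith
  rw [e4]; field_simp; ring

theorem B_odd (k : ℕ) : B (2*k+1) 1 = B (2*k+2) 0 := by
  rw [B_succ (2*k+1) 0]
  have := B_symm (2*k+1) 1
  simp only [zero_sub, zero_add]
  rw [this]; ring

theorem B_W (k : ℕ) : (B (2*k) 0)^2 * (2*(k:ℝ)+1) * Real.Wallis.W k = 1 := by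
  induction k with
  | zero => simp [B, Real.Wallis.W]
  | succ k ih =>
    have e := B_even_step k
    have e' : 2*(k+1) = 2*k+2 := by ring
    rw [e', e, Real.Wallis.W_succ]
    push_cast
    have hk : (0:ℝ) ≤ k := Nat.cast_nonneg _
    have h1 : (0:ℝ) < 2*k+1 := by linarith
    have h2 : (0:ℝ) < 2*k+2 := by linarith
    have h3 : (0:ℝ) < 2*k+3 := by linarith
    refine Eq.trans ?_ ih
    field_simp
    ring

theorem B_even_lower (k : ℕ) : 2/(π*(2*(k:ℝ)+1)) ≤ (B (2*k) 0)^2 := by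
  have e := B_W k
  have hW := Real.Wallis.W_pos k
  have hW2 := Real.Wallis.W_le k
  have hk : (0:ℝ) ≤ k := Nat.cast_nonneg _
  have h1 : (0:ℝ) < 2*k+1 := by linarith
  have hp := Real.pi_pos
  rw [div_le_iff₀ (by positivity)]
  have h2 : (B (2*k) 0)^2 * (2*(k:ℝ)+1) * Real.Wallis.W k ≤
      (B (2*k) 0)^2 * (2*(k:ℝ)+1) * (π/2) :=
    mul_le_mul_of_nonneg_left hW2 (by positivity)
  rw [e] at h2
  nlinarith

theorem B_even_upper (k : ℕ) : (B (2*k) 0)^2 ≤ 2/π * ((2*(k:ℝ)+2)/(2*k+1)^2) := by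
  have e := B_W k
  have hW := Real.Wallis.W_pos k
  have hW2 := Real.Wallis.le_W k
  have hk : (0:ℝ) ≤ k := Nat.cast_nonneg _
  have h1 : (0:ℝ) < 2*k+1 := by linarith
  have h3 : (0:ℝ) < 2*k+2 := by linarith
  have hp := Real.pi_pos
  have h2 : (B (2*k) 0)^2 * (2*(k:ℝ)+1) * (((2 : ℝ) * k + 1) / (2 * k + 2) * (π / 2)) ≤
      (B (2*k) 0)^2 * (2*(k:ℝ)+1) * Real.Wallis.W k :=
    mul_le_mul_of_nonneg_left hW2 (by positivity)
  rw [e] at h2
  have h4 : (B (2*k) 0)^2 = ((B (2*k) 0)^2 * (2*(k:ℝ)+1) *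
      (((2 : ℝ) * k + 1) / (2 * k + 2) * (π / 2))) * (2/π * ((2*(k:ℝ)+2)/(2*k+1)^2)) := by
    field_simp
  rw [h4]
  have h5 : 0 ≤ 2/π * ((2*(k:ℝ)+2)/(2*k+1)^2) := by positivity
  calc _ ≤ 1 * (2/π * ((2*(k:ℝ)+2)/(2*k+1)^2)) := mul_le_mul_of_nonneg_right h2 h5
    _ = _ := one_mul _

/-- `q n` is the square of the central value. -/
noncomputable def q (n : ℕ) : ℝ := (B n 0)^2 + (B n 1)^2

theorem q_even (k : ℕ) : q (2*k) = (B (2*k) 0)^2 := by
  unfold q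
  rw [B_parity (2*k) 1 (by push_cast; omega)]; ring

theorem q_odd (k : ℕ) : q (2*k+1) = (B (2*(k+1)) 0)^2 := by
  unfold q
  rw [B_parity (2*k+1) 0 (by push_cast; omega), B_odd k]
  have : 2*(k+1) = 2*k+2 := by ring
  rw [this]; ring

theorem q_lower (n : ℕ) : 2/(π*((n:ℝ)+2)) ≤ q n := by
  have hp := Real.pi_pos
  rcases Nat.even_or_odd' n with ⟨k, rfl | rfl⟩
  · rw [q_even]
    refine le_trans ?_ (B_even_lower k)
    have hk : (0:ℝ) ≤ k := Nat.cast_nonneg _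
    push_cast
    apply div_le_div_of_nonneg_left (by norm_num) (by positivity)
    apply mul_le_mul_of_nonneg_left _ hp.le
    linarith
  · rw [q_odd]
    refine le_trans ?_ (B_even_lower (k+1))
    have hk : (0:ℝ) ≤ k := Nat.cast_nonneg _
    push_cast
    apply div_le_div_of_nonneg_left (by norm_num) (by positivity)
    apply mul_le_mul_of_nonneg_left _ hp.le
    linarith

theorem q_upper (n : ℕ) : q n ≤ 2/π * (((n:ℝ)+2)/((n:ℝ)+1)^2) := by
  have hp := Real.pi_pos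
  rcases Nat.even_or_odd' n with ⟨k, rfl | rfl⟩
  · rw [q_even]
    refine (B_even_upper k).trans ?_
    push_cast; exact le_refl _
  · rw [q_odd]
    refine (B_even_upper (k+1)).trans ?_
    have hk : (0:ℝ) ≤ k := Nat.cast_nonneg _
    push_cast
    apply mul_le_mul_of_nonneg_left _ (by positivity)
    rw [div_le_div_iff₀ (by positivity) (by positivity)]
    nlinarith [sq_nonneg (k:ℝ), mul_nonneg hk (sq_nonneg (k:ℝ))]

theorem q_upper' (n : ℕ) : q n ≤ 2/((n:ℝ)+1) := by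
  refine (q_upper n).trans ?_
  have hp := Real.pi_gt_three
  have hn : (0:ℝ) ≤ n := Nat.cast_nonneg _
  have h1 : 2/π ≤ 1 := by rw [div_le_one (by positivity)]; linarith
  calc 2/π * (((n:ℝ)+2)/((n:ℝ)+1)^2) ≤ 1 * (((n:ℝ)+2)/((n:ℝ)+1)^2) :=
        mul_le_mul_of_nonneg_right h1 (by positivity)
    _ = ((n:ℝ)+2)/((n:ℝ)+1)^2 := one_mul _
    _ ≤ 2/((n:ℝ)+1) := by
        rw [div_le_div_iff₀ (by positivity) (by positivity)]
        nlinarith

theorem B01_le (n : ℕ) {h : ℤ} (hh : h = 0 ∨ h = 1) : B n h ≤ √2/√((n:ℝ)+1) := by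
  have h1 := q_upper' n
  unfold q at h1
  have h2 : (B n h)^2 ≤ 2/((n:ℝ)+1) := by
    rcases hh with rfl | rfl
    · nlinarith [sq_nonneg (B n 1)]
    · nlinarith [sq_nonneg (B n 0)]
  have h3 : √2/√((n:ℝ)+1) = √(2/((n:ℝ)+1)) := by
    rw [Real.sqrt_div (by norm_num)]
  rw [h3]
  exact Real.le_sqrt_of_sq_le h2

/-- Gaussian bound for all `h ≥ 0`. -/
theorem B_gauss' (n : ℕ) {h : ℤ} (hh : 0 ≤ h) :
    B n h ≤ √2/√((n:ℝ)+1) * exp (-((h:ℝ)^2 - 1)/(4*((n:ℝ)+1))) := by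
  have hn : (0:ℝ) ≤ n := Nat.cast_nonneg _
  obtain ⟨k, h0, hh0, e⟩ : ∃ (k : ℕ) (h0 : ℤ), (h0 = 0 ∨ h0 = 1) ∧ h = h0 + 2*k := by
    refine ⟨(h/2).toNat, h % 2, ?_, ?_⟩
    · omega
    · rw [Int.toNat_of_nonneg (by omega)]; omega
  have h1 := B_gauss n (h0 := h0) (by rcases hh0 with rfl | rfl <;> norm_num) k
  rw [← e] at h1
  refine h1.trans ?_
  refine mul_le_mul (B01_le n hh0) ?_ (exp_pos _).le (by positivity)
  apply exp_le_exp.mpr
  have e' : (h:ℝ) = (h0:ℝ) + 2*k := by rw [e]; push_cast; ring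
  rw [← e']
  apply div_le_div_of_nonneg_right _ (by positivity)
  rcases hh0 with rfl | rfl
  · simp
  · simp

theorem x_exp_neg (x : ℝ) : x * exp (-x) ≤ 1 := by
  have h1 := add_one_le_exp x
  rw [exp_neg]
  have := exp_pos x
  rw [← div_eq_mul_inv, div_le_one this]
  linarith

/-- `h² P(S_n = h) ≤ 8 √(n+1)` -/
theorem sq_B (n : ℕ) {h : ℤ} (hh : 0 ≤ h) : (h:ℝ)^2 * B n h ≤ 8 * √((n:ℝ)+1) := by
  have hn : (0:ℝ) ≤ n := Nat.cast_nonneg _
  have h1 := B_gauss' n hh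
  set N : ℝ := (n:ℝ)+1 with hN
  have hN1 : 1 ≤ N := by linarith
  have hNp : 0 < N := by linarith
  have h2 : exp (-((h:ℝ)^2 - 1)/(4*N)) = exp (-((h:ℝ)^2/(4*N))) * exp (1/(4*N)) := by
    rw [← exp_add]; congr 1; field_simp; ring
  have h3 : exp (1/(4*N)) ≤ 4/3 := by
    have h4 : exp (1/(4*N)) ≤ exp (1/4) := by
      apply exp_le_exp.mpr
      apply div_le_div_of_nonneg_left (by norm_num) (by norm_num)
      linarith
    refine h4.trans ?_
    have h5 := Real.add_one_le_exp (-(1/4:ℝ))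
    have h6 : exp (1/4:ℝ) * exp (-(1/4:ℝ)) = 1 := by rw [← exp_add]; simp
    have h7 := exp_pos (1/4:ℝ)
    nlinarith
  have h8 := x_exp_neg ((h:ℝ)^2/(4*N))
  have h9 : (h:ℝ)^2 * exp (-((h:ℝ)^2/(4*N))) ≤ 4*N := by
    have : (h:ℝ)^2 * exp (-((h:ℝ)^2/(4*N))) = (4*N) * ((h:ℝ)^2/(4*N) * exp (-((h:ℝ)^2/(4*N)))) := by
      field_simp
    rw [this]
    nlinarith
  have hs2 : √2 ≤ 3/2 := by
    rw [Real.sqrt_le_left (by norm_num)]; norm_num
  have hsN : 0 < √N := Real.sqrt_pos.mpr hNp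
  have hNN : N = √N * √N := (Real.mul_self_sqrt hNp.le).symm
  calc (h:ℝ)^2 * B n h ≤ (h:ℝ)^2 * (√2/√N * (exp (-((h:ℝ)^2/(4*N))) * exp (1/(4*N)))) := by
        rw [← h2]
        exact mul_le_mul_of_nonneg_left h1 (sq_nonneg _)
    _ = √2/√N * ((h:ℝ)^2 * exp (-((h:ℝ)^2/(4*N)))) * exp (1/(4*N)) := by ring
    _ ≤ √2/√N * (4*N) * (4/3) := by
        apply mul_le_mul _ h3 (exp_pos _).le (by positivity)
        exact mul_le_mul_of_nonneg_left h9 (by positivity)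
    _ = √2 * (16/3) * √N := by
        have : N / √N = √N := Real.div_sqrt
        calc √2/√N * (4*N) * (4/3) = √2 * (16/3) * (N/√N) := by ring
          _ = _ := by rw [this]
    _ ≤ 8 * √N := by
        apply mul_le_mul_of_nonneg_right _ hsN.le
        nlinarith

theorem hB_le (n : ℕ) {h : ℤ} (hh : 0 ≤ h) : (h:ℝ) * B n h ≤ 4 := by
  have hn : (0:ℝ) ≤ n := Nat.cast_nonneg _
  have h1 := sq_B n hh
  have h0 := B_nonneg n h
  have hh' : (0:ℝ) ≤ h := by exact_mod_cast hh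
  have h2 : B n h ≤ 2/√((n:ℝ)+1) := by
    refine (B_gauss' n hh).trans ?_
    rcases eq_or_lt_of_le hh with e | e
    · subst e
      have h3 := B01_le n (h := 0) (Or.inl rfl)
      have hN1 : (1:ℝ) ≤ (n:ℝ)+1 := by linarith
      have h3 : exp (-(((0:ℤ):ℝ)^2 - 1)/(4*((n:ℝ)+1))) ≤ 4/3 := by
        have h4 : exp (-(((0:ℤ):ℝ)^2 - 1)/(4*((n:ℝ)+1))) ≤ exp (1/4) := by
          apply exp_le_exp.mpr
          simp only [Int.cast_zero]
          rw [div_le_div_iff₀ (by positivity) (by norm_num)]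
          nlinarith
        refine h4.trans ?_
        have h5 := Real.add_one_le_exp (-(1/4:ℝ))
        have h6 : exp (1/4:ℝ) * exp (-(1/4:ℝ)) = 1 := by rw [← exp_add]; simp
        have h7 := exp_pos (1/4:ℝ)
        nlinarith
      have hs2 : √2 ≤ 3/2 := by
        rw [Real.sqrt_le_left (by norm_num)]; norm_num
      have hsN : 0 < √((n:ℝ)+1) := Real.sqrt_pos.mpr (by linarith)
      calc √2/√((n:ℝ)+1) * exp (-(((0:ℤ):ℝ)^2 - 1)/(4*((n:ℝ)+1)))
          ≤ (3/2)/√((n:ℝ)+1) * (4/3) := by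
            apply mul_le_mul _ h3 (exp_pos _).le (by positivity)
            exact div_le_div_of_nonneg_right hs2 hsN.le
        _ = 2/√((n:ℝ)+1) := by ring
    · have h3 : exp (-((h:ℝ)^2 - 1)/(4*((n:ℝ)+1))) ≤ 1 := by
        rw [exp_le_one_iff]
        apply div_nonpos_of_nonpos_of_nonneg _ (by positivity)
        have : (1:ℝ) ≤ h := by exact_mod_cast e
        nlinarith
      have hs2 : √2 ≤ 2 := by
        rw [Real.sqrt_le_left (by norm_num)]; norm_num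
      have hsN : 0 < √((n:ℝ)+1) := Real.sqrt_pos.mpr (by linarith)
      calc √2/√((n:ℝ)+1) * exp (-((h:ℝ)^2 - 1)/(4*((n:ℝ)+1)))
          ≤ 2/√((n:ℝ)+1) * 1 := by
            apply mul_le_mul _ h3 (exp_pos _).le (by positivity)
            exact div_le_div_of_nonneg_right hs2 hsN.le
        _ = _ := mul_one _
  have hsN : 0 < √((n:ℝ)+1) := Real.sqrt_pos.mpr (by linarith)
  have h3 : ((h:ℝ) * B n h)^2 ≤ 4^2 := by
    calc ((h:ℝ) * B n h)^2 = ((h:ℝ)^2 * B n h) * B n h := by ring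
      _ ≤ (8 * √((n:ℝ)+1)) * (2/√((n:ℝ)+1)) := by
          apply mul_le_mul h1 h2 h0 (by positivity)
      _ = 4^2 := by field_simp; norm_num
  exact le_of_sq_le_sq₀ h3 (by norm_num)
  where
  le_of_sq_le_sq₀ {a b : ℝ} (h : a^2 ≤ b^2) (hb : 0 ≤ b) : a ≤ b := by
    exact le_of_abs_le (abs_le_of_sq_le_sq h hb |> abs_le.mpr ∘ abs_le.mp)

end Pool.Agent.R974.FP
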