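import Mathlib
import Pool.Agent.R974.FP.A2

/-! Bounds on the first passage probabilities; local limit theorem. -/

namespace Pool.Agent.R974.FP

open Real Filter Topology

theorem f_eq (m : ℕ) (hm : 0 < m) {h : ℤ} (hh : 0 ≤ h) : f m h = h * B m h / m := by
  obtain ⟨j, rfl⟩ : ∃ j, m = j + 1 := ⟨m - 1, by omega⟩
  have e := hitting j hh
  have hj : (0:ℝ) ≤ j := Nat.cast_nonneg _
  push_cast
  rw [eq_div_iff (by positivity)]
  linarith

theorem f_nonpos (m : ℕ) (hm : 0 < m) {h : ℤ} (hh : h ≤ 0) : f m h = 0 := by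
  obtain ⟨j, rfl⟩ : ∃ j, m = j + 1 := ⟨m - 1, by omega⟩
  exact f_succ_nonpos j hh

theorem f_le (m : ℕ) (hm : 0 < m) (h : ℤ) : f m h ≤ 4/m := by
  have hm' : (0:ℝ) < m := by exact_mod_cast hm
  rcases le_total h 0 with h0 | h0
  · rw [f_nonpos m hm h0]; positivity
  · rw [f_eq m hm h0]
    exact div_le_div_of_nonneg_right (hB_le m h0) hm'.le

theorem sqrt_two_le : √2 ≤ 3/2 := by
  rw [Real.sqrt_le_left (by norm_num)]; norm_num

theorem B_le (n : ℕ) {h : ℤ} (hh : 0 ≤ h) : B n h ≤ 2/√((n:ℝ)+1) := by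
  -- by monotonicity
  have hn : (0:ℝ) ≤ n := Nat.cast_nonneg _
  have hsN : 0 < √((n:ℝ)+1) := Real.sqrt_pos.mpr (by linarith)
  have key : ∀ k : ℕ, ∀ h0 : ℤ, (h0 = 0 ∨ h0 = 1) → B n (h0 + 2*k) ≤ √2/√((n:ℝ)+1) := by
    intro k
    induction k with
    | zero => intro h0 hh0; simpa using B01_le n hh0
    | succ k ih =>
      intro h0 hh0
      refine le_trans ?_ (ih h0 hh0)
      have a1 : h0 + 2*((k+1:ℕ):ℤ) = h0 + 2*(k:ℤ) + 2 := by push_cast; ring
      rw [a1]
      apply B_mono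
      rcases hh0 with rfl | rfl <;> positivity
  have h2 := key (h/2).toNat (h % 2) (by omega)
  have e : h % 2 + 2 * (((h/2).toNat : ℕ) : ℤ) = h := by
    rw [Int.toNat_of_nonneg (by omega)]; omega
  rw [e] at h2
  refine h2.trans (div_le_div_of_nonneg_right ?_ hsN.le)
  have := sqrt_two_le
  linarith

theorem f_lip (m : ℕ) (hm : 0 < m) (h : ℤ) : |f m (h+2) - f m h| ≤ 24/(m*√m) := by
  have hm' : (0:ℝ) < m := by exact_mod_cast hm
  have hm1 : (1:ℝ) ≤ m := by exact_mod_cast hm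
  have hsm : 0 < √(m:ℝ) := Real.sqrt_pos.mpr hm'
  have hmm : (m:ℝ) = √m * √m := (Real.mul_self_sqrt hm'.le).symm
  have hs1 : √((m:ℝ)+1) ≤ 3/2 * √m := by
    have : √((m:ℝ)+1) ≤ √(2*m) := Real.sqrt_le_sqrt (by linarith)
    refine this.trans ?_
    rw [Real.sqrt_mul (by norm_num)]
    exact mul_le_mul_of_nonneg_right sqrt_two_le hsm.le
  have hs2 : √(m:ℝ) ≤ √((m:ℝ)+1) := Real.sqrt_le_sqrt (by linarith)
  have hB2 : ∀ h : ℤ, 0 ≤ h → B m h ≤ 2/√m := by
    intro h hh
    refine (B_le m hh).trans ?_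
    exact div_le_div_of_nonneg_left (by norm_num) hsm hs2
  rcases lt_or_ge h 0 with h0 | h0
  · rcases lt_or_ge h (-1) with h1 | h1
    · rw [f_nonpos m hm (by omega), f_nonpos m hm (by omega)]
      simp; positivity
    · have : h = -1 := by omega
      subst this
      rw [f_nonpos m hm (by omega : (-1:ℤ) ≤ 0)]
      have e1 : (-1:ℤ) + 2 = 1 := by norm_num
      rw [e1, f_eq m hm (by norm_num : (0:ℤ) ≤ 1), sub_zero, abs_of_nonneg]
      · push_cast
        rw [one_mul]
        have := hB2 1 (by norm_num)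
        calc B m 1 / m ≤ (2/√m)/m := div_le_div_of_nonneg_right this hm'.le
          _ = 2/(m*√m) := by rw [div_div, mul_comm]
          _ ≤ 24/(m*√m) := by
              apply div_le_div_of_nonneg_right (by norm_num) (by positivity)
      · have := B_nonneg m 1
        positivity
  · have hh2 : (0:ℤ) ≤ h + 2 := by omega
    rw [f_eq m hm hh2, f_eq m hm h0]
    have er := B_ratio' m h
    set b := B m h with hb
    set b2 := B m (h+2) with hb2
    have hb0 : 0 ≤ b := B_nonneg _ _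
    have hb20 : 0 ≤ b2 := B_nonneg _ _
    have hr : (0:ℝ) ≤ h := by exact_mod_cast h0
    have s1 := sq_B m h0
    have s2 := sq_B m hh2
    rw [← hb] at s1
    rw [← hb2] at s2
    have u2 := hB2 (h+2) hh2
    rw [← hb2] at u2
    push_cast at s2 ⊢
    have e1 : b - b2 = (h*b + (h+2)*b2)/m := by
      field_simp
      linarith
    have e2 : ((h:ℝ)+2)*b2/m - h*b/m = (2*b2 - (h^2*b + h*(h+2)*b2)/m)/m := by
      have : (h:ℝ)*b - (h+2)*b2 = h*(b - b2) - 2*b2 := by ring
      rw [← sub_div]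
      congr 1
      have h3 : (h:ℝ)*(b-b2) = (h^2*b + h*(h+2)*b2)/m := by
        rw [e1]; ring
      linarith
    rw [e2, abs_div, abs_of_pos hm']
    have e3 : (24:ℝ)/(m*√m) = (24/√m)/m := by rw [div_div, mul_comm]
    rw [e3]
    apply div_le_div_of_nonneg_right _ hm'.le
    have t1 : 0 ≤ (h^2*b + h*(h+2)*b2)/m := by positivity
    have t2 : (h^2*b + h*(h+2)*b2)/m ≤ 24/√m := by
      have t3 : (h:ℝ)^2*b + h*(h+2)*b2 ≤ 16 * √((m:ℝ)+1) := by nlinarith
      calc (h^2*b + h*(h+2)*b2)/m ≤ (16 * √((m:ℝ)+1))/m := div_le_div_of_nonneg_right t3 hm'.le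
        _ ≤ (16 * (3/2*√m))/m := by
            apply div_le_div_of_nonneg_right _ hm'.le
            linarith
        _ = 24 * (√m/m) := by ring
        _ = 24/√m := by
            rw [Real.sqrt_div_self']; ring
    have t4 : 2*b2 ≤ 24/√m := by
      calc 2*b2 ≤ 2*(2/√m) := by linarith
        _ = 4/√m := by ring
        _ ≤ 24/√m := div_le_div_of_nonneg_right (by norm_num) hsm.le
    rw [abs_le]
    constructor <;> nlinarith

/-! ### Local limit theorem -/

theorem one_sub_ge {x : ℝ} (h0 : 0 ≤ x) (h1 : x ≤ 1/2) : exp (-x - x^2) ≤ 1 - x := by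
  -- log(1-x) ≥ -x - x^2
  have h2 : 0 < 1 - x := by linarith
  have h3 := Real.quadratic_le_exp_of_nonneg (by positivity : 0 ≤ x + x^2)
  have h4 : exp (-x - x^2) * exp (x + x^2) = 1 := by rw [← exp_add]; simp
  have h5 := exp_pos (-x-x^2)
  have h6 : (1:ℝ) ≤ (1 - x) * (1 + (x + x^2) + (x+x^2)^2/2) := by
    have e : (1 - x) * (1 + (x + x^2) + (x+x^2)^2/2) = 1 + x^2/2 * (1 - x - x^2 - x^3) := by ring
    rw [e]
    have h8 : x^2 ≤ 1/4 := by nlinarith
    have h9 : x^3 ≤ 1/8 := by nlinarith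
    have : 0 ≤ x^2/2 * (1 - x - x^2 - x^3) := by
      apply mul_nonneg (by positivity); linarith
    linarith
  have h7 : (1:ℝ) ≤ (1-x) * exp (x+x^2) := h6.trans (mul_le_mul_of_nonneg_left h3 h2.le)
  calc exp (-x - x^2) ≤ exp (-x - x^2) * ((1-x) * exp (x+x^2)) := by nlinarith
    _ = (1-x) * (exp (-x - x^2) * exp (x + x^2)) := by ring
    _ = 1 - x := by rw [h4, mul_one]

/-- lower product formula -/
theorem B_lower (n : ℕ) (hn : 0 < n) {h0 : ℤ} (hh : 0 ≤ h0) {L : ℝ} (hL : L/n ≤ 1/4) : ∀ k : ℕ,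
    (h0:ℝ) + 2*k ≤ L →
    B n h0 * exp (-(((h0:ℝ) + 2*k)^2 - (h0:ℝ)^2)/(2*n) - k*(2*L/n)^2) ≤ B n (h0 + 2*k)
  | 0, _ => by simp
  | (k+1), hk => by
      have hn' : (0:ℝ) < n := by exact_mod_cast hn
      have hh' : (0:ℝ) ≤ h0 := by exact_mod_cast hh
      have hk0 : (0:ℝ) ≤ k := Nat.cast_nonneg _
      push_cast at hk
      have ih := B_lower n hn hh hL k (by linarith)
      have e := B_ratio' n (h0 + 2*k)
      have a1 : h0 + 2*((k+1:ℕ):ℤ) = h0 + 2*(k:ℤ) + 2 := by push_cast; ring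
      rw [a1]
      push_cast at e ⊢
      set h : ℝ := (h0:ℝ) + 2*k with hdef
      have hpos : (0:ℝ) < n + h + 2 := by positivity
      have hh0 : 0 ≤ h := by positivity
      have hLn : L ≤ n/4 := by
        rw [div_le_iff₀ hn'] at hL; linarith
      have e2 : B n (h0 + 2*k + 2) = B n (h0 + 2*k) * ((n - h)/(n+h+2)) := by
        field_simp
        linarith
      rw [e2]
      have e3 : (n - h)/(n+h+2) = 1 - (2*h+2)/(n+h+2) := by
        field_simp; ring
      have x1 : (2*h+2)/(n+h+2) ≤ (2*h+2)/n := by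
        apply div_le_div_of_nonneg_left (by positivity) hn'
        linarith
      have x2 : (2*h+2)/n ≤ 2*L/n := by
        apply div_le_div_of_nonneg_right _ hn'.le
        linarith
      have x3 : 2*L/n ≤ 1/2 := by rw [div_le_iff₀ hn']; linarith
      have x0 : 0 ≤ (2*h+2)/(n+h+2) := by positivity
      have x4 := one_sub_ge x0 (x1.trans (x2.trans x3))
      have x5 : exp (-((2*h+2)/n) - (2*L/n)^2) ≤ 1 - (2*h+2)/(n+h+2) := by
        refine le_trans ?_ x4
        apply exp_le_exp.mpr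
        have : ((2*h+2)/(n+h+2))^2 ≤ (2*L/n)^2 := by
          apply pow_le_pow_left₀ x0
          exact x1.trans x2
        linarith
      rw [e3]
      calc B n h0 * exp (-(((h0:ℝ) + 2*((k:ℝ)+1))^2 - (h0:ℝ)^2)/(2*n) - ((k:ℝ)+1)*(2*L/n)^2)
          = (B n h0 * exp (-(h^2 - (h0:ℝ)^2)/(2*n) - k*(2*L/n)^2)) *
            exp (-((2*h+2)/n) - (2*L/n)^2) := by
            rw [mul_assoc, ← exp_add]
            congr 2
            rw [hdef]
            field_simp
            ring
        _ ≤ B n (h0 + 2*k) * (1 - (2*h+2)/(n+h+2)) := by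
            apply mul_le_mul ih x5 (exp_pos _).le (B_nonneg _ _)

/-- upper product formula -/
theorem B_upper (n : ℕ) (hn : 0 < n) {h0 : ℤ} (hh : 0 ≤ h0) {L : ℝ} (hL : L/n ≤ 1/4) : ∀ k : ℕ,
    (h0:ℝ) + 2*k ≤ L →
    B n (h0 + 2*k) ≤ B n h0 * exp (-(((h0:ℝ) + 2*k)^2 - (h0:ℝ)^2)/(2*n) + k*(2*L/n)^2)
  | 0, _ => by simp
  | (k+1), hk => by
      have hn' : (0:ℝ) < n := by exact_mod_cast hn
      have hh' : (0:ℝ) ≤ h0 := by exact_mod_cast hh
      have hk0 : (0:ℝ) ≤ k := Nat.cast_nonneg _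
      push_cast at hk
      have ih := B_upper n hn hh hL k (by linarith)
      have e := B_ratio' n (h0 + 2*k)
      have a1 : h0 + 2*((k+1:ℕ):ℤ) = h0 + 2*(k:ℤ) + 2 := by push_cast; ring
      rw [a1]
      push_cast at e ⊢
      set h : ℝ := (h0:ℝ) + 2*k with hdef
      have hpos : (0:ℝ) < n + h + 2 := by positivity
      have hh0 : 0 ≤ h := by positivity
      have hLn : L ≤ n/4 := by
        rw [div_le_iff₀ hn'] at hL; linarith
      have e2 : B n (h0 + 2*k + 2) = B n (h0 + 2*k) * ((n - h)/(n+h+2)) := by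
        field_simp
        linarith
      rw [e2]
      have e3 : (n - h)/(n+h+2) = -((2*h+2)/(n+h+2)) + 1 := by
        field_simp; ring
      have x5 : -((2*h+2)/(n+h+2)) + 1 ≤ exp (-((2*h+2)/n) + (2*L/n)^2) := by
        refine (add_one_le_exp _).trans ?_
        apply exp_le_exp.mpr
        have : (2*h+2)/n - (2*h+2)/(n+h+2) ≤ (2*L/n)^2 := by
          have e4 : (2*h+2)/n - (2*h+2)/(n+h+2) = (2*h+2)*(h+2)/(n*(n+h+2)) := by
            field_simp; ring
          rw [e4]
          have e5 : (2*L/n)^2 = (2*L)*(2*L)/(n*n) := by field_simp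
          rw [e5]
          apply div_le_div₀ (by nlinarith) _ (by positivity) _
          · apply mul_le_mul <;> nlinarith
          · nlinarith
        linarith
      rw [e3]
      have hnn : 0 ≤ -((2*h+2)/(n+h+2)) + 1 := by
        rw [← e3]
        apply div_nonneg _ hpos.le
        linarith
      calc B n (h0 + 2*k) * (-((2*h+2)/(n+h+2)) + 1)
          ≤ (B n h0 * exp (-(h^2 - (h0:ℝ)^2)/(2*n) + k*(2*L/n)^2)) *
            exp (-((2*h+2)/n) + (2*L/n)^2) := by
            apply mul_le_mul ih x5 hnn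
            exact mul_nonneg (B_nonneg _ _) (exp_pos _).le
        _ = _ := by
            rw [mul_assoc, ← exp_add]
            congr 2
            rw [hdef]
            field_simp
            ring

end Pool.Agent.R974.FP
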