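import Mathlib
import Pool.Agent.R974.FP.A3

/-! Asymptotics of `f n (ℓ n)` and the mean of the correlation sum. -/

namespace Pool.Agent.R974.FP

open Real Filter Topology

theorem nq_tendsto : Tendsto (fun n : ℕ => (n:ℝ) * q n) atTop (𝓝 (2/π)) := by
  have hp := Real.pi_pos
  have h1 : Tendsto (fun n : ℕ => (1:ℝ)/((n:ℝ)+1)) atTop (𝓝 0) :=
    tendsto_one_div_add_atTop_nhds_zero_nat
  have h2 : Tendsto (fun n : ℕ => (1:ℝ)/((n:ℝ)+2)) atTop (𝓝 0) := by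
    have := (tendsto_add_atTop_iff_nat 1).mpr h1
    refine this.congr (fun n => ?_)
    push_cast; ring
  have l1 : Tendsto (fun n : ℕ => 2/π * (1 - 2*(1/((n:ℝ)+2)))) atTop (𝓝 (2/π * (1 - 2*0))) :=
    (tendsto_const_nhds.sub (h2.const_mul 2)).const_mul (2/π)
  have l2 : Tendsto (fun n : ℕ => 2/π * (1 + (1/((n:ℝ)+1)))) atTop (𝓝 (2/π * (1 + 0))) :=
    (tendsto_const_nhds.add h1).const_mul (2/π)
  have e1 : 2/π * (1 - 2*0) = 2/π := by ring
  have e2 : 2/π * (1 + 0) = 2/π := by ring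
  rw [e1] at l1
  rw [e2] at l2
  refine tendsto_of_tendsto_of_tendsto_of_le_of_le l1 l2 (fun n => ?_) (fun n => ?_)
  · have := q_lower n
    have hn : (0:ℝ) ≤ n := Nat.cast_nonneg _
    calc 2/π * (1 - 2*(1/((n:ℝ)+2))) = (n:ℝ) * (2/(π*((n:ℝ)+2))) := by
          field_simp; ring
      _ ≤ _ := mul_le_mul_of_nonneg_left this hn
  · have := q_upper n
    have hn : (0:ℝ) ≤ n := Nat.cast_nonneg _
    calc (n:ℝ) * q n ≤ (n:ℝ) * (2/π * (((n:ℝ)+2)/((n:ℝ)+1)^2)) :=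
          mul_le_mul_of_nonneg_left this hn
      _ = 2/π * ((n*((n:ℝ)+2))/((n:ℝ)+1)^2) := by ring
      _ ≤ 2/π * (1 + (1/((n:ℝ)+1))) := by
          apply mul_le_mul_of_nonneg_left _ (by positivity)
          rw [div_le_iff₀ (by positivity)]
          have : (1 + (1/((n:ℝ)+1))) * ((n:ℝ)+1)^2 = ((n:ℝ)+1)^2 + ((n:ℝ)+1) := by
            field_simp
          rw [this]; nlinarith

theorem B_eq_sqrt_q (n : ℕ) {h : ℤ} (hh : h = 0 ∨ h = 1) (hp : (h - n) % 2 = 0) :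
    B n h = √(q n) := by
  have h0 := B_nonneg n h
  have : q n = (B n h)^2 := by
    unfold q
    rcases hh with rfl | rfl
    · rw [B_parity n 1 (by omega)]; ring
    · rw [B_parity n 0 (by omega)]; ring
  rw [this, Real.sqrt_sq h0]

theorem sqrtB_tendsto (l : ℕ → ℤ) (hpar : ∀ᶠ n : ℕ in atTop, (l n - n) % 2 = 0) {μ : ℝ} (hμ : 0 < μ)
    (hl : Tendsto (fun n : ℕ => (l n : ℝ)/√n) atTop (𝓝 μ)) :
    Tendsto (fun n : ℕ => √n * B n (l n)) atTop (𝓝 (√(2/π) * exp (-μ^2/2))) := by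
  -- error terms
  have hsq : Tendsto (fun n : ℕ => √(n:ℝ)) atTop atTop :=
    Real.tendsto_sqrt_atTop.comp tendsto_natCast_atTop_atTop
  have hinv : Tendsto (fun n : ℕ => (√(n:ℝ))⁻¹) atTop (𝓝 0) := tendsto_inv_atTop_zero.comp hsq
  have herr : Tendsto (fun n : ℕ => 2*((l n:ℝ)/√n)^3 * (√(n:ℝ))⁻¹) atTop (𝓝 0) := by
    have := ((hl.pow 3).const_mul 2).mul hinv
    simpa using this
  have hsmall : Tendsto (fun n : ℕ => ((l n:ℝ)/√n) * (√(n:ℝ))⁻¹) atTop (𝓝 0) := by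
    have := hl.mul hinv
    simpa using this
  have hmain : Tendsto (fun n : ℕ => -((l n:ℝ)/√n)^2/2) atTop (𝓝 (-μ^2/2)) :=
    ((hl.pow 2).neg).div_const 2
  have hcorr : Tendsto (fun n : ℕ => 1/2*((√(n:ℝ))⁻¹ * (√(n:ℝ))⁻¹)) atTop (𝓝 0) := by
    have := (hinv.mul hinv).const_mul (1/2)
    simpa using this
  have hq : Tendsto (fun n : ℕ => √((n:ℝ) * q n)) atTop (𝓝 (√(2/π))) :=
    (Real.continuous_sqrt.tendsto _).comp nq_tendsto
  have hlow : Tendsto (fun n : ℕ => √((n:ℝ) * q n) *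
      exp (-((l n:ℝ)/√n)^2/2 - 2*((l n:ℝ)/√n)^3 * (√(n:ℝ))⁻¹)) atTop
      (𝓝 (√(2/π) * exp (-μ^2/2))) := by
    have h1 := hmain.sub herr
    rw [sub_zero] at h1
    exact hq.mul ((Real.continuous_exp.tendsto _).comp h1)
  have hup : Tendsto (fun n : ℕ => √((n:ℝ) * q n) *
      exp (-((l n:ℝ)/√n)^2/2 + (1/2*((√(n:ℝ))⁻¹ * (√(n:ℝ))⁻¹) + 2*((l n:ℝ)/√n)^3 * (√(n:ℝ))⁻¹))) atTop
      (𝓝 (√(2/π) * exp (-μ^2/2))) := by
    have h1 := hmain.add (hcorr.add herr)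
    rw [add_zero, add_zero] at h1
    exact hq.mul ((Real.continuous_exp.tendsto _).comp h1)
  have hev : ∀ᶠ n : ℕ in atTop, 0 < n ∧ 0 < (l n : ℝ) ∧ (l n:ℝ)/n ≤ 1/4 ∧ (l n - n) % 2 = 0 := by
    have h1 : ∀ᶠ n : ℕ in atTop, 0 < (l n : ℝ)/√n := hl.eventually_const_lt hμ
    have h2 : ∀ᶠ n : ℕ in atTop, ((l n:ℝ)/√n) * (√(n:ℝ))⁻¹ ≤ 1/4 :=
      hsmall.eventually_le_const (by norm_num)
    filter_upwards [h1, h2, hpar, eventually_gt_atTop 0] with n a1 a2 a3 a4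
    have hn : (0:ℝ) < n := by exact_mod_cast a4
    have hs : 0 < √(n:ℝ) := Real.sqrt_pos.mpr hn
    refine ⟨a4, ?_, ?_, a3⟩
    · exact (div_pos_iff_of_pos_right hs).mp a1
    · have : (l n:ℝ)/√n * (√(n:ℝ))⁻¹ = (l n:ℝ)/n := by
        rw [← div_eq_mul_inv, div_div, Real.mul_self_sqrt hn.le]
      rw [← this]; exact a2
  refine tendsto_of_tendsto_of_tendsto_of_le_of_le' hlow hup ?_ ?_
  · filter_upwards [hev] with n ⟨hn0, hl0, hl4, hp⟩
    have hn : (0:ℝ) < n := by exact_mod_cast hn0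
    have hs : 0 < √(n:ℝ) := Real.sqrt_pos.mpr hn
    have hss : √(n:ℝ) * √(n:ℝ) = n := Real.mul_self_sqrt hn.le
    have hl0' : 0 < l n := by exact_mod_cast hl0
    have hh0 : (l n) % 2 = 0 ∨ (l n) % 2 = 1 := by omega
    have ek : l n % 2 + 2 * (((l n/2).toNat : ℕ) : ℤ) = l n := by
      rw [Int.toNat_of_nonneg (by omega)]; omega
    have ekr : ((l n % 2 : ℤ):ℝ) + 2 * (((l n/2).toNat : ℕ) : ℝ) = l n := by exact_mod_cast ek
    have key := B_lower n hn0 (h0 := l n % 2) (by omega) hl4 (l n/2).toNat (le_of_eq ekr)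
    rw [ek, ekr] at key
    rw [B_eq_sqrt_q n hh0 (by omega)] at key
    have hk2 : (((l n/2).toNat : ℕ) : ℝ) ≤ (l n:ℝ)/2 := by
      have : (0:ℝ) ≤ ((l n % 2 : ℤ):ℝ) := by
        rcases hh0 with h | h <;> rw [h] <;> norm_num
      linarith
    calc √((n:ℝ) * q n) * exp (-((l n:ℝ)/√n)^2/2 - 2*((l n:ℝ)/√n)^3 * (√(n:ℝ))⁻¹)
        ≤ √n * (√(q n) * exp (-(((l n:ℝ))^2 - ((l n % 2 : ℤ):ℝ)^2)/(2*n) -
            (((l n/2).toNat : ℕ) : ℝ)*(2*(l n:ℝ)/n)^2)) := by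
          rw [Real.sqrt_mul hn.le, mul_assoc]
          apply mul_le_mul_of_nonneg_left _ hs.le
          apply mul_le_mul_of_nonneg_left _ (Real.sqrt_nonneg _)
          apply exp_le_exp.mpr
          have e1 : -((l n:ℝ)/√n)^2/2 = -((l n:ℝ)^2)/(2*n) := by
            rw [div_pow, Real.sq_sqrt hn.le]; field_simp
          have e2 : 2*((l n:ℝ)/√n)^3 * (√(n:ℝ))⁻¹ = (l n:ℝ)/2 * (2*(l n:ℝ)/n)^2 := by
            have : (n:ℝ)^2 = √(n:ℝ)^4 := by
              calc (n:ℝ)^2 = (√(n:ℝ) * √(n:ℝ))^2 := by rw [hss]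
                _ = _ := by ring
            rw [div_pow, div_pow, this]; field_simp
          rw [e1, e2]
          have e3 : -((l n:ℝ)^2)/(2*n) ≤ -(((l n:ℝ))^2 - ((l n % 2 : ℤ):ℝ)^2)/(2*n) := by
            apply div_le_div_of_nonneg_right _ (by positivity)
            nlinarith [sq_nonneg ((l n % 2 : ℤ):ℝ)]
          have e4 : (((l n/2).toNat : ℕ) : ℝ)*(2*(l n:ℝ)/n)^2 ≤ (l n:ℝ)/2 * (2*(l n:ℝ)/n)^2 :=
            mul_le_mul_of_nonneg_right hk2 (sq_nonneg _)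
          linarith
      _ ≤ √n * B n (l n) := mul_le_mul_of_nonneg_left key hs.le
  · filter_upwards [hev] with n ⟨hn0, hl0, hl4, hp⟩
    have hn : (0:ℝ) < n := by exact_mod_cast hn0
    have hs : 0 < √(n:ℝ) := Real.sqrt_pos.mpr hn
    have hss : √(n:ℝ) * √(n:ℝ) = n := Real.mul_self_sqrt hn.le
    have hl0' : 0 < l n := by exact_mod_cast hl0
    have hh0 : (l n) % 2 = 0 ∨ (l n) % 2 = 1 := by omega
    have ek : l n % 2 + 2 * (((l n/2).toNat : ℕ) : ℤ) = l n := by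
      rw [Int.toNat_of_nonneg (by omega)]; omega
    have ekr : ((l n % 2 : ℤ):ℝ) + 2 * (((l n/2).toNat : ℕ) : ℝ) = l n := by exact_mod_cast ek
    have key := B_upper n hn0 (h0 := l n % 2) (by omega) hl4 (l n/2).toNat (le_of_eq ekr)
    rw [ek, ekr] at key
    rw [B_eq_sqrt_q n hh0 (by omega)] at key
    have hk2 : (((l n/2).toNat : ℕ) : ℝ) ≤ (l n:ℝ)/2 := by
      have : (0:ℝ) ≤ ((l n % 2 : ℤ):ℝ) := by
        rcases hh0 with h | h <;> rw [h] <;> norm_num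
      linarith
    calc √n * B n (l n) ≤ √n * (√(q n) * exp (-(((l n:ℝ))^2 - ((l n % 2 : ℤ):ℝ)^2)/(2*n) +
            (((l n/2).toNat : ℕ) : ℝ)*(2*(l n:ℝ)/n)^2)) := mul_le_mul_of_nonneg_left key hs.le
      _ ≤ _ := by
          rw [Real.sqrt_mul hn.le, mul_assoc]
          apply mul_le_mul_of_nonneg_left _ hs.le
          apply mul_le_mul_of_nonneg_left _ (Real.sqrt_nonneg _)
          apply exp_le_exp.mpr
          have e1 : -((l n:ℝ)/√n)^2/2 = -((l n:ℝ)^2)/(2*n) := by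
            rw [div_pow, Real.sq_sqrt hn.le]; field_simp
          have e2 : 2*((l n:ℝ)/√n)^3 * (√(n:ℝ))⁻¹ = (l n:ℝ)/2 * (2*(l n:ℝ)/n)^2 := by
            have : (n:ℝ)^2 = √(n:ℝ)^4 := by
              calc (n:ℝ)^2 = (√(n:ℝ) * √(n:ℝ))^2 := by rw [hss]
                _ = _ := by ring
            rw [div_pow, div_pow, this]; field_simp
          have e5 : 1/2*((√(n:ℝ))⁻¹ * (√(n:ℝ))⁻¹) = 1/(2*n) := by
            rw [← mul_inv, hss]; field_simp
          rw [e1, e2, e5]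
          have e3 : -(((l n:ℝ))^2 - ((l n % 2 : ℤ):ℝ)^2)/(2*n) ≤ -((l n:ℝ)^2)/(2*n) + 1/(2*n) := by
            rw [← add_div]
            apply div_le_div_of_nonneg_right _ (by positivity)
            rcases hh0 with h | h <;> rw [h] <;> norm_num
          have e4 : (((l n/2).toNat : ℕ) : ℝ)*(2*(l n:ℝ)/n)^2 ≤ (l n:ℝ)/2 * (2*(l n:ℝ)/n)^2 :=
            mul_le_mul_of_nonneg_right hk2 (sq_nonneg _)
          linarith

theorem nf_tendsto (l : ℕ → ℤ) (hpar : ∀ᶠ n : ℕ in atTop, (l n - n) % 2 = 0) {μ : ℝ} (hμ : 0 < μ)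
    (hl : Tendsto (fun n : ℕ => (l n : ℝ)/√n) atTop (𝓝 μ)) :
    Tendsto (fun n : ℕ => (n:ℝ) * f n (l n)) atTop (𝓝 (μ * (√(2/π) * exp (-μ^2/2)))) := by
  have h1 := hl.mul (sqrtB_tendsto l hpar hμ hl)
  refine h1.congr' ?_
  have h1 : ∀ᶠ n : ℕ in atTop, 0 < (l n : ℝ)/√n := hl.eventually_const_lt hμ
  filter_upwards [h1, eventually_gt_atTop 0] with n a1 a4
  have hn : (0:ℝ) < n := by exact_mod_cast a4
  have hs : 0 < √(n:ℝ) := Real.sqrt_pos.mpr hn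
  have hl0 : 0 < (l n:ℝ) := (div_pos_iff_of_pos_right hs).mp a1
  have hl0' : 0 < l n := by exact_mod_cast hl0
  rw [f_eq n a4 hl0'.le]
  field_simp

/-! ### the mean of the correlation sum -/

/-- `mu J = ∑_{j=1}^J E f_j(-S_j)` -/
noncomputable def mu (J : ℕ) : ℝ := ∑ j ∈ Finset.range J, q j / 4

theorem sum_sq_inv' (J : ℕ) : ∑ j ∈ Finset.range (J+1), (1:ℝ)/((j:ℝ)+1)^2 ≤ 2 - 1/((J:ℝ)+1) := by
  induction J with
  | zero => norm_num
  | succ J ih =>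
    rw [Finset.sum_range_succ]
    have hJ : (0:ℝ) ≤ J := Nat.cast_nonneg _
    push_cast
    have e : (1:ℝ)/((J:ℝ)+1+1)^2 ≤ 1/((J:ℝ)+1) - 1/((J:ℝ)+1+1) := by
      rw [div_sub_div _ _ (by positivity) (by positivity), div_le_div_iff₀ (by positivity) (by positivity)]
      nlinarith
    linarith

theorem sum_sq_inv (J : ℕ) : ∑ j ∈ Finset.range J, (1:ℝ)/((j:ℝ)+1)^2 ≤ 2 := by
  rcases J with _ | J
  · norm_num
  · have := sum_sq_inv' J
    have h2 : (0:ℝ) ≤ 1/((J:ℝ)+1) := by positivity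
    linarith

theorem harm_le (J : ℕ) : ∑ j ∈ Finset.range J, (1:ℝ)/((j:ℝ)+1) ≤ 1 + Real.log J := by
  have h := harmonic_le_one_add_log J
  have e : ((harmonic J : ℚ) : ℝ) = ∑ j ∈ Finset.range J, (1:ℝ)/((j:ℝ)+1) := by
    unfold harmonic
    push_cast
    apply Finset.sum_congr rfl
    intro i _
    rw [one_div]
  rw [e] at h
  exact h

theorem harm_ge (J : ℕ) : Real.log ((J:ℝ)+1) ≤ ∑ j ∈ Finset.range J, (1:ℝ)/((j:ℝ)+1) := by
  have h := log_add_one_le_harmonic J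
  have e : ((harmonic J : ℚ) : ℝ) = ∑ j ∈ Finset.range J, (1:ℝ)/((j:ℝ)+1) := by
    unfold harmonic
    push_cast
    apply Finset.sum_congr rfl
    intro i _
    rw [one_div]
  rw [e] at h
  exact_mod_cast h

theorem mu_upper (J : ℕ) : mu J ≤ 1/(2*π) * (Real.log J + 3) := by
  have hp := Real.pi_pos
  unfold mu
  calc ∑ j ∈ Finset.range J, q j / 4
      ≤ ∑ j ∈ Finset.range J, 1/(2*π) * ((1:ℝ)/((j:ℝ)+1) + 1/((j:ℝ)+1)^2) := by
        apply Finset.sum_le_sum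
        intro j _
        have := q_upper j
        have hj : (0:ℝ) ≤ j := Nat.cast_nonneg _
        calc q j / 4 ≤ (2/π * (((j:ℝ)+2)/((j:ℝ)+1)^2))/4 := by linarith
          _ = _ := by field_simp; ring
    _ = 1/(2*π) * (∑ j ∈ Finset.range J, (1:ℝ)/((j:ℝ)+1) + ∑ j ∈ Finset.range J, (1:ℝ)/((j:ℝ)+1)^2) := by
        rw [← Finset.mul_sum, Finset.sum_add_distrib]
    _ ≤ 1/(2*π) * (Real.log J + 3) := by
        apply mul_le_mul_of_nonneg_left _ (by positivity)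
        have h1 := harm_le J
        have h2 := sum_sq_inv J
        linarith

theorem mu_lower (J : ℕ) : 1/(2*π) * (Real.log ((J:ℝ)+2) - 1) ≤ mu J := by
  have hp := Real.pi_pos
  unfold mu
  calc 1/(2*π) * (Real.log ((J:ℝ)+2) - 1)
      ≤ 1/(2*π) * (∑ j ∈ Finset.range (J+1), (1:ℝ)/((j:ℝ)+1) - 1) := by
        apply mul_le_mul_of_nonneg_left _ (by positivity)
        have h1 := harm_ge (J+1)
        push_cast at h1
        have e : (J:ℝ)+1+1 = (J:ℝ)+2 := by ring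
        rw [e] at h1
        linarith
    _ = ∑ j ∈ Finset.range J, 1/(2*π) * ((1:ℝ)/((j:ℝ)+2)) := by
        rw [Finset.sum_range_succ', ← Finset.mul_sum]
        congr 1
        push_cast
        simp only [zero_add, div_one, add_sub_cancel_right]
        apply Finset.sum_congr rfl
        intro j _
        congr 1; ring
    _ ≤ ∑ j ∈ Finset.range J, q j / 4 := by
        apply Finset.sum_le_sum
        intro j _
        have := q_lower j
        have hj : (0:ℝ) ≤ j := Nat.cast_nonneg _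
        calc 1/(2*π) * ((1:ℝ)/((j:ℝ)+2)) = (2/(π*((j:ℝ)+2)))/4 := by field_simp; ring
          _ ≤ _ := by linarith

end Pool.Agent.R974.FP
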