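import Mathlib
import Pool.Agent.R974.FP.A4

/-! Averaging operator, means, exponential moments (bounded differences). -/

namespace Pool.Agent.R974.FP

open Real Filter Topology

/-- averaging over one step -/
noncomputable def K (u : ℤ → ℝ) (s : ℤ) : ℝ := (u (s+1) + u (s-1))/2

theorem hasSum_K : ∀ (j : ℕ) (u : ℤ → ℝ), HasSum (fun h : ℤ => B j h * u h) ((K^[j] u) 0)
  | 0, u => by
      have : (fun h : ℤ => B 0 h * u h) = fun h : ℤ => if h = 0 then u 0 else 0 := by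
        funext h
        unfold B
        split_ifs with hh
        · rw [hh, one_mul]
        · rw [zero_mul]
      rw [this]
      exact hasSum_ite_eq 0 (u 0)
  | (j+1), u => by
      have h1 := hasSum_K j (fun h => u (h+1))
      have h2 := hasSum_K j (fun h => u (h-1))
      have h3 := hasSum_K j (K u)
      have h4 : HasSum (fun h : ℤ => B j (h-1) * u h) ((K^[j] (fun h => u (h+1))) 0) := by
        have := (Equiv.subRight (1:ℤ)).hasSum_iff.mpr h1
        refine this.congr_fun ?_ |> fun h => h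
        intro h
        simp [Function.comp]
      have h5 : HasSum (fun h : ℤ => B j (h+1) * u h) ((K^[j] (fun h => u (h-1))) 0) := by
        have := (Equiv.addRight (1:ℤ)).hasSum_iff.mpr h2
        refine this.congr_fun ?_ |> fun h => h
        intro h
        simp [Function.comp]
      have h6 := (h4.add h5).div_const 2
      have h7 := (h1.add h2).div_const 2
      have e1 : (fun h : ℤ => (B j h * u (h+1) + B j h * u (h-1))/2) = fun h : ℤ => B j h * K u h := by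
        funext h; unfold K; ring
      rw [e1] at h7
      have e2 := h7.unique h3
      rw [Function.iterate_succ_apply, ← e2]
      refine h6.congr_fun ?_ |> fun h => h
      intro h
      rw [B_succ]; ring

theorem telesc (b : ℤ → ℝ) (M : ℕ) :
    ∑ i ∈ Finset.range M, (b ((i:ℤ)-1) - b ((i:ℤ)+1)) = b (-1) + b 0 - b ((M:ℤ)-1) - b M := by
  induction M with
  | zero => simp
  | succ M ih =>
    rw [Finset.sum_range_succ, ih]
    push_cast
    have : (M:ℤ) + 1 - 1 = M := by ring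
    rw [this]; ring

theorem mean_f (j : ℕ) : (K^[j+1] (fun s => f (j+1) (-s))) 0 = q j / 4 := by
  have h1 := hasSum_K (j+1) (fun s => f (j+1) (-s))
  set s : Finset ℤ := (Finset.range (j+3)).image (fun i : ℕ => -(i:ℤ)) with hs
  have h2 : HasSum (fun h : ℤ => B (j+1) h * f (j+1) (-h)) (∑ h ∈ s, B (j+1) h * f (j+1) (-h)) := by
    apply hasSum_sum_of_ne_finset_zero
    intro h hh
    by_cases h0 : 0 ≤ h
    · rw [f_succ_nonpos j (by omega), mul_zero]
    · push Not at h0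
      have h3 : h < -((j:ℤ)+2) := by
        by_contra hcon
        push Not at hcon
        apply hh
        rw [hs, Finset.mem_image]
        refine ⟨(-h).toNat, ?_, ?_⟩
        · rw [Finset.mem_range]; omega
        · omega
      rw [B_out (j+1) h (by rw [abs_of_neg h0]; push_cast; omega), zero_mul]
  rw [h1.unique h2, hs, Finset.sum_image (by intro a _ b _ hab; simpa using hab)]
  have h3 : ∀ i ∈ Finset.range (j+3), B (j+1) (-(i:ℤ)) * f (j+1) (- -(i:ℤ)) =
      (fun z : ℤ => (B j z)^2/4) ((i:ℤ)-1) - (fun z : ℤ => (B j z)^2/4) ((i:ℤ)+1) := by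
    intro i _
    rw [neg_neg, B_symm, mul_comm, fB j (by positivity)]
    ring
  rw [Finset.sum_congr rfl h3, telesc (fun z : ℤ => (B j z)^2/4) (j+3)]
  have z1 : B j (((j+3:ℕ):ℤ) - 1) = 0 := by
    apply B_out; rw [abs_of_nonneg] <;> push_cast <;> omega
  have z2 : B j ((j+3:ℕ):ℤ) = 0 := by
    apply B_out; rw [abs_of_nonneg] <;> push_cast <;> omega
  simp only [z1, z2]
  rw [B_symm]
  unfold q
  ring

/-! ### exponential moments -/

/-- mean of `∑_{i=1}^r g_{k+i}(S_{k+i})` from `S_k = s` -/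
noncomputable def mm (g : ℕ → ℤ → ℝ) : ℕ → ℕ → ℤ → ℝ
  | 0, _, _ => 0
  | (r+1), k, s => K (fun s' => g (k+1) s' + mm g r (k+1) s') s

/-- exponential moment of the same -/
noncomputable def ZZ (g : ℕ → ℤ → ℝ) (θ : ℝ) : ℕ → ℕ → ℤ → ℝ
  | 0, _, _ => 1
  | (r+1), k, s => K (fun s' => exp (θ * g (k+1) s') * ZZ g θ r (k+1) s') s

theorem K_add (u v : ℤ → ℝ) (s : ℤ) : K (fun x => u x + v x) s = K u s + K v s := by
  unfold K; ring

theorem Kit_add (u v : ℤ → ℝ) : ∀ n : ℕ, K^[n] (fun x => u x + v x) = fun x => (K^[n] u) x + (K^[n] v) x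
  | 0 => rfl
  | (n+1) => by
      rw [Function.iterate_succ_apply', Kit_add u v n]
      funext x
      rw [K_add, Function.iterate_succ_apply', Function.iterate_succ_apply']

theorem K_sum {ι : Type*} (s : Finset ι) (u : ι → ℤ → ℝ) (x : ℤ) :
    K (fun y => ∑ i ∈ s, u i y) x = ∑ i ∈ s, K (u i) x := by
  unfold K
  rw [← Finset.sum_add_distrib, Finset.sum_div]

theorem mm_eq (g : ℕ → ℤ → ℝ) : ∀ (r k : ℕ) (s : ℤ),
    mm g r k s = ∑ i ∈ Finset.range r, (K^[i+1] (g (k+i+1))) s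
  | 0, k, s => by simp [mm]
  | (r+1), k, s => by
      rw [mm, K_add, Finset.sum_range_succ']
      have : mm g r (k+1) = fun s' => ∑ i ∈ Finset.range r, (K^[i+1] (g (k+1+i+1))) s' := by
        funext s'
        exact mm_eq g r (k+1) s'
      rw [this, K_sum, add_comm]
      congr 1
      apply Finset.sum_congr rfl
      intro i _
      rw [← Function.iterate_succ_apply' K]
      have : k + 1 + i + 1 = k + (i+1) + 1 := by ring
      rw [this]

/-- accumulated Lipschitz constant -/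
noncomputable def CC (l : ℕ → ℝ) (r k : ℕ) : ℝ := ∑ i ∈ Finset.range r, l (k+i+1)

theorem CC_succ (l : ℕ → ℝ) (r k : ℕ) : CC l (r+1) k = l (k+1) + CC l r (k+1) := by
  unfold CC
  rw [Finset.sum_range_succ', add_comm]
  congr 1
  apply Finset.sum_congr rfl
  intro i _
  congr 1; ring

noncomputable def VV (l : ℕ → ℝ) : ℕ → ℕ → ℝ
  | 0, _ => 0
  | (r+1), k => (CC l (r+1) k)^2 + VV l r (k+1)

theorem mm_lip (g : ℕ → ℤ → ℝ) (l : ℕ → ℝ) (hg : ∀ j, 0 < j → ∀ s, |g j (s+2) - g j s| ≤ l j) :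
    ∀ (r k : ℕ) (s : ℤ), |mm g r k (s+2) - mm g r k s| ≤ CC l r k
  | 0, k, s => by simp [mm, CC]
  | (r+1), k, s => by
      rw [mm, mm, CC_succ]
      unfold K
      have a1 := hg (k+1) (by omega) (s+1)
      have a2 := hg (k+1) (by omega) (s-1)
      have b1 := mm_lip g l hg r (k+1) (s+1)
      have b2 := mm_lip g l hg r (k+1) (s-1)
      have e1 : s + 1 + 2 = s + 2 + 1 := by ring
      have e2 : s - 1 + 2 = s + 2 - 1 := by ring
      rw [e1] at a1 b1
      rw [e2] at a2 b2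
      rw [abs_le] at a1 a2 b1 b2 ⊢
      constructor <;> linarith [a1.1, a1.2, a2.1, a2.2, b1.1, b1.2, b2.1, b2.2]

theorem cosh_bound (a b c : ℝ) (h : |a - b| ≤ c) : (exp a + exp b)/2 ≤ exp ((a+b)/2 + c^2/8) := by
  have h1 := Real.cosh_le_exp_half_sq ((a-b)/2)
  have h2 : (exp a + exp b)/2 = exp ((a+b)/2) * Real.cosh ((a-b)/2) := by
    rw [Real.cosh_eq]
    have e1 : exp a = exp ((a+b)/2) * exp ((a-b)/2) := by rw [← exp_add]; congr 1; ring
    have e2 : exp b = exp ((a+b)/2) * exp (-((a-b)/2)) := by rw [← exp_add]; congr 1; ring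
    rw [e1, e2]; ring
  rw [h2, exp_add]
  apply mul_le_mul_of_nonneg_left _ (exp_pos _).le
  refine h1.trans ?_
  apply exp_le_exp.mpr
  have : (a-b)^2 ≤ c^2 := by
    rw [← sq_abs (a-b)]
    exact pow_le_pow_left₀ (abs_nonneg _) h 2
  nlinarith

theorem ZZ_pos (g : ℕ → ℤ → ℝ) (θ : ℝ) : ∀ (r k : ℕ) (s : ℤ), 0 < ZZ g θ r k s
  | 0, k, s => by simp [ZZ]
  | (r+1), k, s => by
      rw [ZZ]; unfold K
      have h1 := ZZ_pos g θ r (k+1) (s+1)
      have h2 := ZZ_pos g θ r (k+1) (s-1)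
      positivity

theorem ZZ_le (g : ℕ → ℤ → ℝ) (l : ℕ → ℝ) (hg : ∀ j, 0 < j → ∀ s, |g j (s+2) - g j s| ≤ l j) (θ : ℝ) :
    ∀ (r k : ℕ) (s : ℤ), ZZ g θ r k s ≤ exp (θ * mm g r k s + θ^2/8 * VV l r k)
  | 0, k, s => by simp [ZZ, mm, VV]
  | (r+1), k, s => by
      rw [ZZ, mm, VV]
      unfold K
      have h1 := ZZ_le g l hg θ r (k+1) (s+1)
      have h2 := ZZ_le g l hg θ r (k+1) (s-1)
      set a := θ * (g (k+1) (s+1) + mm g r (k+1) (s+1)) with ha
      set b := θ * (g (k+1) (s-1) + mm g r (k+1) (s-1)) with hb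
      have hab : |a - b| ≤ |θ| * CC l (r+1) k := by
        have a1 := hg (k+1) (by omega) (s-1)
        have b1 := mm_lip g l hg r (k+1) (s-1)
        have e1 : s - 1 + 2 = s + 1 := by ring
        rw [e1] at a1 b1
        have : a - b = θ * ((g (k+1) (s+1) - g (k+1) (s-1)) +
            (mm g r (k+1) (s+1) - mm g r (k+1) (s-1))) := by rw [ha, hb]; ring
        rw [this, abs_mul]
        apply mul_le_mul_of_nonneg_left _ (abs_nonneg _)
        rw [CC_succ]
        exact (abs_add_le _ _).trans (add_le_add a1 b1)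
      have h3 := cosh_bound a b _ hab
      have e1 : exp (θ * g (k+1) (s+1)) * ZZ g θ r (k+1) (s+1) ≤ exp a * exp (θ^2/8 * VV l r (k+1)) := by
        calc _ ≤ exp (θ * g (k+1) (s+1)) * exp (θ * mm g r (k+1) (s+1) + θ^2/8 * VV l r (k+1)) :=
              mul_le_mul_of_nonneg_left h1 (exp_pos _).le
          _ = _ := by rw [← exp_add, ← exp_add, ha]; congr 1; ring
      have e2 : exp (θ * g (k+1) (s-1)) * ZZ g θ r (k+1) (s-1) ≤ exp b * exp (θ^2/8 * VV l r (k+1)) := by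
        calc _ ≤ exp (θ * g (k+1) (s-1)) * exp (θ * mm g r (k+1) (s-1) + θ^2/8 * VV l r (k+1)) :=
              mul_le_mul_of_nonneg_left h2 (exp_pos _).le
          _ = _ := by rw [← exp_add, ← exp_add, hb]; congr 1; ring
      calc _ ≤ (exp a + exp b)/2 * exp (θ^2/8 * VV l r (k+1)) := by linarith
        _ ≤ exp ((a+b)/2 + (|θ| * CC l (r+1) k)^2/8) * exp (θ^2/8 * VV l r (k+1)) :=
            mul_le_mul_of_nonneg_right h3 (exp_pos _).le
        _ = _ := by
            rw [← exp_add, mul_pow, sq_abs, ha, hb]; congr 1; ring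

/-- The Lipschitz constants for first passage probabilities. -/
noncomputable def lf (j : ℕ) : ℝ := 24/(j*√j)

theorem lf_tele (j : ℕ) (hj : 0 < j) : lf j ≤ 96 * (1/√(j:ℝ) - 1/√((j:ℝ)+1)) := by
  have hj' : (0:ℝ) < j := by exact_mod_cast hj
  have hj1 : (1:ℝ) ≤ j := by exact_mod_cast hj
  have hs : 0 < √(j:ℝ) := Real.sqrt_pos.mpr hj'
  have hs1 : 0 < √((j:ℝ)+1) := Real.sqrt_pos.mpr (by linarith)
  have hss : √(j:ℝ) * √(j:ℝ) = j := Real.mul_self_sqrt hj'.le
  have hss1 : √((j:ℝ)+1) * √((j:ℝ)+1) = j + 1 := Real.mul_self_sqrt (by linarith)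
  have h1 : √((j:ℝ)+1) ≤ 3/2 * √(j:ℝ) := by
    have : √((j:ℝ)+1) ≤ √(2*j) := Real.sqrt_le_sqrt (by linarith)
    refine this.trans ?_
    rw [Real.sqrt_mul (by norm_num)]
    exact mul_le_mul_of_nonneg_right sqrt_two_le hs.le
  have e : 1/√(j:ℝ) - 1/√((j:ℝ)+1) = 1/(√(j:ℝ) * √((j:ℝ)+1) * (√((j:ℝ)+1) + √(j:ℝ))) := by
    rw [div_sub_div _ _ hs.ne' hs1.ne', div_eq_div_iff (by positivity) (by positivity)]
    calc (1 * √((j:ℝ) + 1) - √(j:ℝ) * 1) * (√(j:ℝ) * √((j:ℝ) + 1) * (√((j:ℝ) + 1) + √(j:ℝ)))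
        = (√(j:ℝ) * √((j:ℝ) + 1)) * (√((j:ℝ)+1) * √((j:ℝ)+1) - √(j:ℝ) * √(j:ℝ)) := by ring
      _ = 1 * (√(j:ℝ) * √((j:ℝ) + 1)) := by rw [hss, hss1]; ring
  rw [e]
  unfold lf
  rw [mul_one_div, div_le_div_iff₀ (by positivity) (by positivity)]
  have h2 : √(j:ℝ) * √((j:ℝ)+1) * (√((j:ℝ)+1) + √(j:ℝ)) ≤ √(j:ℝ) * (3/2*√(j:ℝ)) * (3/2*√(j:ℝ) + √(j:ℝ)) := by
    apply mul_le_mul _ _ (by positivity) (by positivity)
    · exact mul_le_mul_of_nonneg_left h1 hs.le
    · linarith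
  have h3 : √(j:ℝ) * (3/2*√(j:ℝ)) * (3/2*√(j:ℝ) + √(j:ℝ)) = 15/4 * (j * √(j:ℝ)) := by
    calc _ = 15/4 * ((√(j:ℝ) * √(j:ℝ)) * √(j:ℝ)) := by ring
      _ = _ := by rw [hss]
  have h4 : 0 < (j:ℝ) * √(j:ℝ) := by positivity
  nlinarith

theorem CC_lf (r k : ℕ) : CC lf r k ≤ 96 * (1/√((k:ℝ)+1) - 1/√((k:ℝ)+r+1)) := by
  induction r with
  | zero => simp [CC]
  | succ r ih =>
    have e : CC lf (r+1) k = CC lf r k + lf (k+r+1) := by
      unfold CC; rw [Finset.sum_range_succ]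
    rw [e]
    have h := lf_tele (k+r+1) (by omega)
    push_cast at h ⊢
    have e2 : (k:ℝ) + (r+1) + 1 = k + r + 1 + 1 := by ring
    rw [e2]
    linarith

theorem CC_lf' (r k : ℕ) : CC lf r k ≤ 96/√((k:ℝ)+1) := by
  refine (CC_lf r k).trans ?_
  have : (0:ℝ) ≤ 1/√((k:ℝ)+r+1) := by positivity
  have e : (96:ℝ)/√((k:ℝ)+1) = 96 * (1/√((k:ℝ)+1)) := by ring
  rw [e]; linarith

theorem lf_nonneg (j : ℕ) : 0 ≤ lf j := by unfold lf; positivity

theorem CC_lf_sq (r k : ℕ) : (CC lf r k)^2 ≤ 9216/((k:ℝ)+1) := by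
  have h0 : 0 ≤ CC lf r k := Finset.sum_nonneg (fun i _ => lf_nonneg _)
  have h1 := CC_lf' r k
  have hk : (0:ℝ) < (k:ℝ)+1 := by positivity
  calc (CC lf r k)^2 ≤ (96/√((k:ℝ)+1))^2 := pow_le_pow_left₀ h0 h1 2
    _ = 9216/((k:ℝ)+1) := by rw [div_pow, Real.sq_sqrt hk.le]; norm_num

theorem VV_lf (r k : ℕ) : VV lf r k ≤ 9216 * ∑ i ∈ Finset.range r, 1/(((k+i:ℕ):ℝ)+1) := by
  induction r generalizing k with
  | zero => simp [VV]
  | succ r ih =>
    rw [VV, Finset.sum_range_succ', mul_add]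
    have h1 := CC_lf_sq (r+1) k
    have h2 := ih (k+1)
    have e : ∑ i ∈ Finset.range r, 1/(((k+1+i:ℕ):ℝ)+1) = ∑ i ∈ Finset.range r, 1/(((k+(i+1):ℕ):ℝ)+1) := by
      apply Finset.sum_congr rfl
      intro i _
      have : k + 1 + i = k + (i+1) := by ring
      rw [this]
    rw [e] at h2
    have e3 : (9216:ℝ) * (1/(((k+0:ℕ):ℝ)+1)) = 9216/((k:ℝ)+1) := by
      rw [add_zero]; ring
    rw [e3]; linarith

theorem VV_lf0 (r : ℕ) : VV lf r 0 ≤ 9216 * (1 + Real.log r) := by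
  refine (VV_lf r 0).trans ?_
  apply mul_le_mul_of_nonneg_left _ (by norm_num)
  have := harm_le r
  simpa using this

/-- The functional: `gf j s = f_j(-s)`. -/
noncomputable def gf (j : ℕ) (s : ℤ) : ℝ := f j (-s)

theorem gf_lip (j : ℕ) (hj : 0 < j) (s : ℤ) : |gf j (s+2) - gf j s| ≤ lf j := by
  unfold gf lf
  have := f_lip j hj (-s-2)
  have e1 : -s - 2 + 2 = -s := by ring
  have e2 : -(s+2) = -s - 2 := by ring
  rw [e1] at this
  rw [e2, abs_sub_comm]
  exact this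

theorem mm_gf (r : ℕ) : mm gf r 0 0 = mu r := by
  rw [mm_eq]
  unfold mu
  apply Finset.sum_congr rfl
  intro i _
  have := mean_f i
  simp only [zero_add]
  exact this

theorem ZZ_gf (θ : ℝ) (r : ℕ) : ZZ gf θ r 0 0 ≤ exp (θ * mu r + 1152 * θ^2 * (1 + Real.log r)) := by
  refine (ZZ_le gf lf gf_lip θ r 0 0).trans ?_
  apply exp_le_exp.mpr
  rw [mm_gf]
  have := VV_lf0 r
  nlinarith [sq_nonneg θ]

end Pool.Agent.R974.FP
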