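import Mathlib
import Pool.Agent.R974.FP.M

/-! The random walk on a probability space: determination by finitely many steps, independence,
first passage events, exponential moment. -/

namespace Pool.Agent.R974.FP

open MeasureTheory ProbabilityTheory Filter Topology
open scoped ENNReal

variable {Ω : Type*} [MeasurableSpace Ω]

/-- i.i.d. fair signs. -/
structure Walk (P : Measure Ω) (X : ℕ → Ω → ℤ) : Prop where
  meas : ∀ i, Measurable (X i)
  indep : iIndepFun X P
  plus : ∀ i, P {ω | X i ω = 1} = 1/2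
  minus : ∀ i, P {ω | X i ω = -1} = 1/2

/-- `E` only depends on the steps in `[a,b)`. -/
def Det (X : ℕ → Ω → ℤ) (a b : ℕ) (E : Set Ω) : Prop :=
  ∀ ω ω', (∀ i, a ≤ i → i < b → X i ω = X i ω') → ω ∈ E → ω' ∈ E

/-- `Φ` only depends on the steps in `[a,b)`. -/
def DetF {β : Type*} (X : ℕ → Ω → ℤ) (a b : ℕ) (Φ : Ω → β) : Prop :=
  ∀ ω ω', (∀ i, a ≤ i → i < b → X i ω = X i ω') → Φ ω = Φ ω'

/-- The vector of steps in `[a,b)`. -/
def vec (X : ℕ → Ω → ℤ) (a b : ℕ) (ω : Ω) : (Finset.Ico a b) → ℤ := fun i => X i ω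

omit [MeasurableSpace Ω] in
theorem detF_comp {β : Type*} {X : ℕ → Ω → ℤ} {a b : ℕ} {Φ : Ω → β} (h : DetF X a b Φ) (e : β) :
    ∃ φ : ((Finset.Ico a b) → ℤ) → β, Φ = φ ∘ vec X a b := by
  have h1 : Function.FactorsThrough Φ (vec X a b) := by
    intro ω ω' hv
    apply h ω ω'
    intro i hi hi'
    have := congrFun hv ⟨i, Finset.mem_Ico.mpr ⟨hi, hi'⟩⟩
    exact this
  refine ⟨Function.extend (vec X a b) Φ (fun _ => e), ?_⟩
  funext ω
  exact (h1.extend_apply _ ω).symm

theorem vec_meas {X : ℕ → Ω → ℤ} (hX : ∀ i, Measurable (X i)) (a b : ℕ) : Measurable (vec X a b) :=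
  measurable_pi_iff.mpr (fun i => hX i)

theorem detF_meas {β : Type*} [MeasurableSpace β] {X : ℕ → Ω → ℤ} (hX : ∀ i, Measurable (X i))
    {a b : ℕ} {Φ : Ω → β} (h : DetF X a b Φ) (e : β) : Measurable Φ := by
  obtain ⟨φ, rfl⟩ := detF_comp h e
  exact (measurable_of_countable φ).comp (vec_meas hX a b)

omit [MeasurableSpace Ω] in
theorem det_detF {X : ℕ → Ω → ℤ} {a b : ℕ} {E : Set Ω} (h : Det X a b E) (c : ℝ≥0∞) :
    DetF X a b (E.indicator (fun _ => c)) := by
  intro ω ω' hω
  by_cases h1 : ω ∈ E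
  · rw [Set.indicator_of_mem h1, Set.indicator_of_mem (h ω ω' hω h1)]
  · have h2 : ω' ∉ E := fun h3 => h1 (h ω' ω (fun i hi hi' => (hω i hi hi').symm) h3)
    rw [Set.indicator_of_notMem h1, Set.indicator_of_notMem h2]

theorem det_meas {X : ℕ → Ω → ℤ} (hX : ∀ i, Measurable (X i))
    {a b : ℕ} {E : Set Ω} (h : Det X a b E) : MeasurableSet E := by
  have h1 : DetF X a b (fun ω => ω ∈ E) := by
    intro ω ω' hω
    exact propext ⟨h ω ω' hω, h ω' ω (fun i hi hi' => (hω i hi hi').symm)⟩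
  have h2 : Measurable (fun ω => ω ∈ E) := detF_meas hX h1 True
  exact measurableSet_setOfPred.mpr h2

theorem indep_detF {P : Measure Ω} [IsProbabilityMeasure P] {X : ℕ → Ω → ℤ} (hW : Walk P X)
    {a b c d : ℕ} (hbc : b ≤ c) {Φ Ψ : Ω → ℝ≥0∞} (hΦ : DetF X a b Φ) (hΨ : DetF X c d Ψ) :
    ∫⁻ ω, Φ ω * Ψ ω ∂P = (∫⁻ ω, Φ ω ∂P) * ∫⁻ ω, Ψ ω ∂P := by
  obtain ⟨φ, hφ⟩ := detF_comp hΦ 0
  obtain ⟨ψ, hψ⟩ := detF_comp hΨ 0
  have hd : Disjoint (Finset.Ico a b) (Finset.Ico c d) := by
    rw [Finset.disjoint_left]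
    intro i hi hi'
    rw [Finset.mem_Ico] at hi hi'
    omega
  have h1 := hW.indep.indepFun_finset (Finset.Ico a b) (Finset.Ico c d) hd hW.meas
  have h2 : IndepFun Φ Ψ P := by
    rw [hφ, hψ]
    exact h1.comp (measurable_of_countable φ) (measurable_of_countable ψ)
  exact lintegral_mul_eq_lintegral_mul_lintegral_of_indepFun (detF_meas hW.meas hΦ 0)
    (detF_meas hW.meas hΨ 0) h2

theorem indep_det {P : Measure Ω} [IsProbabilityMeasure P] {X : ℕ → Ω → ℤ} (hW : Walk P X)
    {a b c d : ℕ} (hbc : b ≤ c) {E F : Set Ω} (hE : Det X a b E) (hF : Det X c d F) :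
    P (E ∩ F) = P E * P F := by
  have h := indep_detF hW hbc (det_detF hE 1) (det_detF hF 1)
  have hmE := det_meas hW.meas hE
  have hmF := det_meas hW.meas hF
  have e1 : ∀ ω, E.indicator (fun _ => (1:ℝ≥0∞)) ω * F.indicator (fun _ => (1:ℝ≥0∞)) ω =
      (E ∩ F).indicator (fun _ => (1:ℝ≥0∞)) ω := by
    intro ω
    by_cases h1 : ω ∈ E
    · by_cases h2 : ω ∈ F
      · simp [h1, h2]
      · simp [h1, h2]
    · simp [h1]
  simp_rw [e1] at h
  rw [lintegral_indicator_const (hmE.inter hmF), lintegral_indicator_const hmE,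
    lintegral_indicator_const hmF] at h
  simpa using h

/-- increments -/
def D (X : ℕ → Ω → ℤ) (a j : ℕ) (ω : Ω) : ℤ := ∑ i ∈ Finset.range j, X (a+i) ω

omit [MeasurableSpace Ω] in
theorem D_zero (X : ℕ → Ω → ℤ) (a : ℕ) (ω : Ω) : D X a 0 ω = 0 := by simp [D]

omit [MeasurableSpace Ω] in
theorem D_succ (X : ℕ → Ω → ℤ) (a j : ℕ) (ω : Ω) : D X a (j+1) ω = D X a j ω + X (a+j) ω := by
  unfold D; rw [Finset.sum_range_succ]

omit [MeasurableSpace Ω] in
theorem D_add (X : ℕ → Ω → ℤ) (a i j : ℕ) (ω : Ω) : D X a (i+j) ω = D X a i ω + D X (a+i) j ω := by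
  unfold D
  rw [Finset.sum_range_add]
  congr 1
  apply Finset.sum_congr rfl
  intro k _
  rw [add_assoc]

omit [MeasurableSpace Ω] in
theorem D_succ' (X : ℕ → Ω → ℤ) (a j : ℕ) (ω : Ω) : D X a (j+1) ω = X a ω + D X (a+1) j ω := by
  rw [add_comm j 1, D_add]
  simp [D]

omit [MeasurableSpace Ω] in
theorem D_detF (X : ℕ → Ω → ℤ) (a j : ℕ) {c d : ℕ} (hc : c ≤ a) (hd : a + j ≤ d) :
    DetF X c d (D X a j) := by
  intro ω ω' h
  unfold D
  apply Finset.sum_congr rfl
  intro i hi
  rw [Finset.mem_range] at hi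
  exact h (a+i) (by omega) (by omega)

/-- first passage of `-h` at time `j`, starting at time `a` -/
def FPe (X : ℕ → Ω → ℤ) (a j : ℕ) (h : ℤ) : Set Ω :=
  {ω | D X a j ω = -h ∧ ∀ i < j, D X a j ω < D X a i ω}

omit [MeasurableSpace Ω] in
theorem FPe_det (X : ℕ → Ω → ℤ) (a j : ℕ) (h : ℤ) {c d : ℕ} (hc : c ≤ a) (hd : a + j ≤ d) :
    Det X c d (FPe X a j h) := by
  intro ω ω' hω hm
  have h1 : D X a j ω = -h ∧ ∀ i < j, D X a j ω < D X a i ω := hm
  have e : ∀ i ≤ j, D X a i ω = D X a i ω' := fun i hi =>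
    D_detF X a i hc (by omega) ω ω' hω
  show D X a j ω' = -h ∧ ∀ i < j, D X a j ω' < D X a i ω'
  rw [← e j (le_refl _)]
  refine ⟨h1.1, fun i hi => ?_⟩
  rw [← e i hi.le]
  exact h1.2 i hi

theorem ae_sign {P : Measure Ω} [IsProbabilityMeasure P] {X : ℕ → Ω → ℤ} (hW : Walk P X) (i : ℕ) :
    ∀ᵐ ω ∂P, X i ω = 1 ∨ X i ω = -1 := by
  have hm1 : MeasurableSet {ω | X i ω = 1} := hW.meas i (measurableSet_singleton (1:ℤ))
  have hm2 : MeasurableSet {ω | X i ω = -1} := hW.meas i (measurableSet_singleton (-1:ℤ))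
  have hd : Disjoint {ω | X i ω = 1} {ω | X i ω = -1} := by
    rw [Set.disjoint_left]
    intro ω h1 h2
    have a1 : X i ω = 1 := h1
    have a2 : X i ω = -1 := h2
    omega
  have h1 : P ({ω | X i ω = 1} ∪ {ω | X i ω = -1}) = 1 := by
    rw [measure_union hd hm2, hW.plus i, hW.minus i]
    exact ENNReal.add_halves 1
  have h2 := (prob_compl_eq_zero_iff (hm1.union hm2)).mpr h1
  rw [ae_iff]
  refine measure_mono_null ?_ h2
  intro ω hω
  have hω' : ¬ (X i ω = 1 ∨ X i ω = -1) := hω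
  intro hcon
  exact hω' hcon

omit [MeasurableSpace Ω] in
theorem single_det (X : ℕ → Ω → ℤ) (i : ℕ) (v : ℤ) : Det X i (i+1) {ω | X i ω = v} := by
  intro ω ω' h hm
  have : X i ω = v := hm
  show X i ω' = v
  rw [← h i (le_refl _) (by omega)]; exact this

/-- probability of a first passage -/
theorem P_FPe {P : Measure Ω} [IsProbabilityMeasure P] {X : ℕ → Ω → ℤ} (hW : Walk P X) :
    ∀ (j a : ℕ) (h : ℤ), P (FPe X a j h) = ENNReal.ofReal (f j h)
  | 0, a, h => by
      unfold f
      by_cases hh : h = 0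
      · have : FPe X a 0 h = Set.univ := by
          ext ω
          simp [FPe, D_zero, hh]
        rw [this, measure_univ]; simp [hh]
      · have : FPe X a 0 h = ∅ := by
          ext ω
          simp only [FPe, Set.mem_ofPred_eq, D_zero, Set.mem_empty_iff_false, iff_false, not_and]
          intro h0; exfalso; apply hh; omega
        rw [this, measure_empty]; simp [hh]
  | (j+1), a, h => by
      by_cases hh : h ≤ 0
      · have : FPe X a (j+1) h = ∅ := by
          ext ω
          simp only [FPe, Set.mem_ofPred_eq, Set.mem_empty_iff_false, iff_false, not_and]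
          intro h1 h2
          have h3 := h2 0 (by omega)
          rw [D_zero] at h3
          omega
        rw [this, measure_empty, f_succ_nonpos j hh, ENNReal.ofReal_zero]
      · push Not at hh
        rw [f_succ_pos j hh]
        have ih1 := P_FPe hW j (a+1) (h-1)
        have ih2 := P_FPe hW j (a+1) (h+1)
        have key : ∀ ω, (X a ω = 1 ∨ X a ω = -1) →
            (ω ∈ FPe X a (j+1) h ↔ ω ∈ ({ω | X a ω = 1} ∩ FPe X (a+1) j (h+1)) ∪
              ({ω | X a ω = -1} ∩ FPe X (a+1) j (h-1))) := by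
          intro ω hx
          have hiff : ω ∈ FPe X a (j+1) h ↔ ω ∈ FPe X (a+1) j (h + X a ω) := by
            simp only [FPe, Set.mem_ofPred_eq]
            rw [D_succ']
            constructor
            · rintro ⟨h1, h2⟩
              refine ⟨by omega, fun i hi => ?_⟩
              have h3 := h2 (i+1) (by omega)
              rw [D_succ'] at h3
              omega
            · rintro ⟨h1, h2⟩
              refine ⟨by omega, fun i hi => ?_⟩
              rcases i with _ | i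
              · rw [D_zero]; omega
              · have h3 := h2 i (by omega)
                rw [D_succ']; omega
          rw [hiff]
          simp only [Set.mem_union, Set.mem_inter_iff, Set.mem_ofPred_eq]
          rcases hx with hx | hx
          · rw [hx]; simp
          · rw [hx]
            have : h + -1 = h - 1 := by ring
            rw [this]; simp
        have hae : P (FPe X a (j+1) h) = P (({ω | X a ω = 1} ∩ FPe X (a+1) j (h+1)) ∪
              ({ω | X a ω = -1} ∩ FPe X (a+1) j (h-1))) := by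
          apply measure_congr
          filter_upwards [ae_sign hW a] with ω hω
          exact propext (key ω hω)
        have hm2 : MeasurableSet ({ω | X a ω = -1} ∩ FPe X (a+1) j (h-1)) :=
          (hW.meas a (measurableSet_singleton (-1:ℤ))).inter
            (det_meas hW.meas (FPe_det X (a+1) j (h-1) (le_refl _) (le_refl _)))
        rw [hae, measure_union _ hm2,
          indep_det hW (le_refl (a+1)) (single_det X a 1) (FPe_det X (a+1) j (h+1) (le_refl _) (le_refl _)),
          indep_det hW (le_refl (a+1)) (single_det X a (-1)) (FPe_det X (a+1) j (h-1) (le_refl _) (le_refl _)),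
          hW.plus, hW.minus, ih1, ih2]
        · have e : (1/2 : ℝ≥0∞) = ENNReal.ofReal (1/2) := by
            rw [ENNReal.ofReal_div_of_pos (by norm_num)]; simp
          rw [e, ← ENNReal.ofReal_mul (by norm_num), ← ENNReal.ofReal_mul (by norm_num),
            ← ENNReal.ofReal_add (mul_nonneg (by norm_num) (f_nonneg _ _))
              (mul_nonneg (by norm_num) (f_nonneg _ _))]
          congr 1; ring
        · rw [Set.disjoint_left]
          rintro ω ⟨h1, _⟩ ⟨h2, _⟩
          have a1 : X a ω = 1 := h1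
          have a2 : X a ω = -1 := h2
          omega

/-- one step of the walk -/
theorem one_step {P : Measure Ω} [IsProbabilityMeasure P] {X : ℕ → Ω → ℤ} (hW : Walk P X)
    (a k : ℕ) {Φ : Ω → ℝ≥0∞} (hΦ : DetF X a (a+k) Φ) (w : ℤ → ℝ≥0∞) :
    ∫⁻ ω, Φ ω * w (D X a (k+1) ω) ∂P =
      ∫⁻ ω, Φ ω * ((w (D X a k ω + 1) + w (D X a k ω - 1)) * (1/2)) ∂P := by
  have hm1 : MeasurableSet {ω | X (a+k) ω = 1} := hW.meas _ (measurableSet_singleton (1:ℤ))
  have hm2 : MeasurableSet {ω | X (a+k) ω = -1} := hW.meas _ (measurableSet_singleton (-1:ℤ))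
  have hdet : ∀ v : ℤ, DetF X a (a+k) (fun ω => Φ ω * w (D X a k ω + v)) := by
    intro v ω ω' h
    have h1 : Φ ω = Φ ω' := hΦ ω ω' h
    have h2 : D X a k ω = D X a k ω' := D_detF X a k (le_refl _) (le_refl _) ω ω' h
    show Φ ω * w (D X a k ω + v) = Φ ω' * w (D X a k ω' + v)
    rw [h1, h2]
  have h1 : ∀ᵐ ω ∂P, Φ ω * w (D X a (k+1) ω) =
      (Φ ω * w (D X a k ω + 1)) * {ω | X (a+k) ω = 1}.indicator (fun _ => (1:ℝ≥0∞)) ω +
      (Φ ω * w (D X a k ω + -1)) * {ω | X (a+k) ω = -1}.indicator (fun _ => (1:ℝ≥0∞)) ω := by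
    filter_upwards [ae_sign hW (a+k)] with ω hω
    rw [D_succ]
    rcases hω with h | h
    · have a1 : ω ∈ {ω | X (a+k) ω = 1} := h
      have a2 : ω ∉ {ω | X (a+k) ω = -1} := by
        intro h2
        have : X (a+k) ω = -1 := h2
        omega
      rw [Set.indicator_of_mem a1, Set.indicator_of_notMem a2, h]
      simp
    · have a1 : ω ∈ {ω | X (a+k) ω = -1} := h
      have a2 : ω ∉ {ω | X (a+k) ω = 1} := by
        intro h2
        have : X (a+k) ω = 1 := h2
        omega
      rw [Set.indicator_of_mem a1, Set.indicator_of_notMem a2, h]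
      simp
  rw [lintegral_congr_ae h1]
  have hmm : ∀ v : ℤ, Measurable (fun ω => Φ ω * w (D X a k ω + v)) :=
    fun v => detF_meas hW.meas (hdet v) 0
  have hma : Measurable (fun ω => Φ ω * w (D X a k ω + 1) *
      {ω | X (a+k) ω = 1}.indicator (fun _ => (1:ℝ≥0∞)) ω) :=
    (hmm 1).mul (measurable_const.indicator hm1)
  rw [lintegral_add_left hma,
    indep_detF hW (le_refl _) (hdet 1) (det_detF (single_det X (a+k) 1) 1),
    indep_detF hW (le_refl _) (hdet (-1)) (det_detF (single_det X (a+k) (-1)) 1),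
    lintegral_indicator_const hm1, lintegral_indicator_const hm2, hW.plus, hW.minus]
  have e : ∀ ω, Φ ω * ((w (D X a k ω + 1) + w (D X a k ω - 1)) * (1/2)) =
      (Φ ω * w (D X a k ω + 1)) * (1/2) + (Φ ω * w (D X a k ω + -1)) * (1/2) := by
    intro ω
    rw [← sub_eq_add_neg]; ring
  simp_rw [e]
  rw [lintegral_add_left ((hmm 1).mul_const _), lintegral_mul_const _ (hmm 1),
    lintegral_mul_const _ (hmm (-1))]
  simp

theorem expmom {P : Measure Ω} [IsProbabilityMeasure P] {X : ℕ → Ω → ℤ} (hW : Walk P X)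
    (g : ℕ → ℤ → ℝ) (θ : ℝ) (a : ℕ) : ∀ (r k : ℕ) (Φ : Ω → ℝ≥0∞), DetF X a (a+k) Φ →
    ∫⁻ ω, Φ ω * ENNReal.ofReal (Real.exp (θ * ∑ i ∈ Finset.range r, g (k+i+1) (D X a (k+i+1) ω))) ∂P =
    ∫⁻ ω, Φ ω * ENNReal.ofReal (ZZ g θ r k (D X a k ω)) ∂P
  | 0, k, Φ, _ => by simp [ZZ]
  | (r+1), k, Φ, hΦ => by
      have hΦ' : DetF X a (a+(k+1)) (fun ω => Φ ω *
          ENNReal.ofReal (Real.exp (θ * g (k+1) (D X a (k+1) ω)))) := by
        intro ω ω' h
        have h1 : Φ ω = Φ ω' := hΦ ω ω' (fun i hi hi' => h i hi (by omega))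
        have h2 : D X a (k+1) ω = D X a (k+1) ω' := D_detF X a (k+1) (le_refl _) (le_refl _) ω ω' h
        show Φ ω * ENNReal.ofReal (Real.exp (θ * g (k+1) (D X a (k+1) ω))) =
          Φ ω' * ENNReal.ofReal (Real.exp (θ * g (k+1) (D X a (k+1) ω')))
        rw [h1, h2]
      have ih := expmom hW g θ a r (k+1) _ hΦ'
      have e1 : ∀ ω, Φ ω * ENNReal.ofReal (Real.exp (θ * ∑ i ∈ Finset.range (r+1),
            g (k+i+1) (D X a (k+i+1) ω))) =
          Φ ω * ENNReal.ofReal (Real.exp (θ * g (k+1) (D X a (k+1) ω))) *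
          ENNReal.ofReal (Real.exp (θ * ∑ i ∈ Finset.range r,
            g (k+1+i+1) (D X a (k+1+i+1) ω))) := by
        intro ω
        rw [mul_assoc, ← ENNReal.ofReal_mul (Real.exp_pos _).le, ← Real.exp_add,
          Finset.sum_range_succ', ← mul_add]
        congr 4
        rw [add_comm]
        congr 1
        apply Finset.sum_congr rfl
        intro i _
        have : k + (i+1) + 1 = k + 1 + i + 1 := by ring
        rw [this]
      simp_rw [e1]
      rw [ih]
      have e2 : ∀ ω, Φ ω * ENNReal.ofReal (Real.exp (θ * g (k+1) (D X a (k+1) ω))) *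
          ENNReal.ofReal (ZZ g θ r (k+1) (D X a (k+1) ω)) =
          Φ ω * (fun s : ℤ => ENNReal.ofReal (Real.exp (θ * g (k+1) s) * ZZ g θ r (k+1) s))
            (D X a (k+1) ω) := by
        intro ω
        rw [mul_assoc, ← ENNReal.ofReal_mul (Real.exp_pos _).le]
      simp_rw [e2]
      rw [one_step hW a k hΦ (fun s : ℤ => ENNReal.ofReal (Real.exp (θ * g (k+1) s) * ZZ g θ r (k+1) s))]
      apply lintegral_congr
      intro ω
      congr 1
      have e : (1/2 : ℝ≥0∞) = ENNReal.ofReal (1/2) := by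
        rw [ENNReal.ofReal_div_of_pos (by norm_num)]; simp
      have p1 : 0 ≤ Real.exp (θ * g (k+1) (D X a k ω + 1)) * ZZ g θ r (k+1) (D X a k ω + 1) :=
        mul_nonneg (Real.exp_pos _).le (ZZ_pos _ _ _ _ _).le
      have p2 : 0 ≤ Real.exp (θ * g (k+1) (D X a k ω - 1)) * ZZ g θ r (k+1) (D X a k ω - 1) :=
        mul_nonneg (Real.exp_pos _).le (ZZ_pos _ _ _ _ _).le
      rw [e, ← ENNReal.ofReal_add p1 p2, ← ENNReal.ofReal_mul (add_nonneg p1 p2), ZZ]
      unfold K
      congr 1; ring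

end Pool.Agent.R974.FP
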