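import Mathlib
import Pool.Agent.R974.FP.P

/-! Concentration of the correlation sum and the renewal identity. -/

namespace Pool.Agent.R974.FP

open MeasureTheory ProbabilityTheory Filter Topology
open scoped ENNReal

variable {Ω : Type*} [MeasurableSpace Ω]

theorem gf_nonneg (j : ℕ) (s : ℤ) : 0 ≤ gf j s := f_nonneg _ _

/-- the correlation sum -/
noncomputable def GG (X : ℕ → Ω → ℤ) (b r : ℕ) (ω : Ω) : ℝ :=
  ∑ i ∈ Finset.range r, gf (i+1) (D X b (i+1) ω)

omit [MeasurableSpace Ω] in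
theorem GG_detF (X : ℕ → Ω → ℤ) (b r : ℕ) {c d : ℕ} (hc : c ≤ b) (hd : b + r ≤ d) :
    DetF X c d (GG X b r) := by
  intro ω ω' h
  unfold GG
  apply Finset.sum_congr rfl
  intro i hi
  rw [Finset.mem_range] at hi
  rw [D_detF X b (i+1) hc (by omega) ω ω' h]

theorem GG_exp {P : Measure Ω} [IsProbabilityMeasure P] {X : ℕ → Ω → ℤ} (hW : Walk P X)
    (θ : ℝ) (b J : ℕ) :
    ∫⁻ ω, ENNReal.ofReal (Real.exp (θ * GG X b J ω)) ∂P ≤
      ENNReal.ofReal (Real.exp (θ * mu J + 1152 * θ^2 * (1 + Real.log J))) := by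
  have h := expmom hW gf θ b J 0 (fun _ => 1) (fun _ _ _ => rfl)
  simp only [one_mul, zero_add, D_zero, lintegral_const, measure_univ, mul_one] at h
  unfold GG
  rw [h]
  exact ENNReal.ofReal_le_ofReal (ZZ_gf θ J)

theorem conc_aux {P : Measure Ω} [IsProbabilityMeasure P] {X : ℕ → Ω → ℤ} (hW : Walk P X)
    (θ : ℝ) (b J : ℕ) (c : ℝ) (E : Set Ω) (hE : ∀ ω ∈ E, c ≤ θ * GG X b J ω) :
    P E ≤ ENNReal.ofReal (Real.exp (θ * mu J + 1152 * θ^2 * (1 + Real.log J) - c)) := by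
  have hm : Measurable (fun ω => ENNReal.ofReal (Real.exp (θ * GG X b J ω))) := by
    have h1 : DetF X b (b+J) (fun ω => ENNReal.ofReal (Real.exp (θ * GG X b J ω))) := by
      intro ω ω' h
      have := GG_detF X b J (le_refl _) (le_refl _) ω ω' h
      show ENNReal.ofReal (Real.exp (θ * GG X b J ω)) = ENNReal.ofReal (Real.exp (θ * GG X b J ω'))
      rw [this]
    exact detF_meas hW.meas h1 0
  have h1 := mul_meas_ge_le_lintegral (μ := P) hm (ENNReal.ofReal (Real.exp c))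
  have h2 : P E ≤ P {ω | ENNReal.ofReal (Real.exp c) ≤ ENNReal.ofReal (Real.exp (θ * GG X b J ω))} := by
    apply measure_mono
    intro ω hω
    exact ENNReal.ofReal_le_ofReal (Real.exp_le_exp.mpr (hE ω hω))
  have h3 := GG_exp hW θ b J
  have h4 : ENNReal.ofReal (Real.exp c) * P E ≤
      ENNReal.ofReal (Real.exp (θ * mu J + 1152 * θ^2 * (1 + Real.log J))) :=
    ((mul_le_mul_right h2 _).trans h1).trans h3
  have h5 : ENNReal.ofReal (Real.exp (θ * mu J + 1152 * θ^2 * (1 + Real.log J) - c)) =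
      ENNReal.ofReal (Real.exp (θ * mu J + 1152 * θ^2 * (1 + Real.log J))) / ENNReal.ofReal (Real.exp c) := by
    rw [Real.exp_sub, ENNReal.ofReal_div_of_pos (Real.exp_pos c)]
  rw [h5, ENNReal.le_div_iff_mul_le]
  · rw [mul_comm]; exact h4
  · left; simp [Real.exp_pos]
  · left; exact ENNReal.ofReal_ne_top

/-- atypical correlation sum -/
def Bad (X : ℕ → Ω → ℤ) (b J : ℕ) (t : ℝ) : Set Ω :=
  {ω | mu J + t ≤ GG X b J ω ∨ GG X b J ω ≤ mu J - t}

omit [MeasurableSpace Ω] in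
theorem Bad_det (X : ℕ → Ω → ℤ) (b J : ℕ) (t : ℝ) {c d : ℕ} (hc : c ≤ b) (hd : b + J ≤ d) :
    Det X c d (Bad X b J t) := by
  intro ω ω' h hm
  have h1 := GG_detF X b J hc hd ω ω' h
  have h2 : mu J + t ≤ GG X b J ω ∨ GG X b J ω ≤ mu J - t := hm
  show mu J + t ≤ GG X b J ω' ∨ GG X b J ω' ≤ mu J - t
  rw [← h1]; exact h2

theorem P_Bad {P : Measure Ω} [IsProbabilityMeasure P] {X : ℕ → Ω → ℤ} (hW : Walk P X)
    {θ : ℝ} (hθ : 0 ≤ θ) (b J : ℕ) (t : ℝ) :
    P (Bad X b J t) ≤ ENNReal.ofReal (2 * Real.exp (1152 * θ^2 * (1 + Real.log J) - θ * t)) := by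
  have h1 := conc_aux hW θ b J (θ * (mu J + t)) {ω | mu J + t ≤ GG X b J ω} (by
    intro ω hω
    have h : mu J + t ≤ GG X b J ω := hω
    exact mul_le_mul_of_nonneg_left h hθ)
  have h2 := conc_aux hW (-θ) b J (-θ * (mu J - t)) {ω | GG X b J ω ≤ mu J - t} (by
    intro ω hω
    have h : GG X b J ω ≤ mu J - t := hω
    have := mul_le_mul_of_nonneg_left h hθ
    linarith)
  have e1 : θ * mu J + 1152 * θ^2 * (1 + Real.log J) - θ * (mu J + t) =
    1152 * θ^2 * (1 + Real.log J) - θ * t := by ring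
  have e2 : -θ * mu J + 1152 * (-θ)^2 * (1 + Real.log J) - -θ * (mu J - t) =
    1152 * θ^2 * (1 + Real.log J) - θ * t := by ring
  rw [e1] at h1
  rw [e2] at h2
  have h3 : Bad X b J t = {ω | mu J + t ≤ GG X b J ω} ∪ {ω | GG X b J ω ≤ mu J - t} := rfl
  rw [h3, two_mul, ENNReal.ofReal_add (Real.exp_pos _).le (Real.exp_pos _).le]
  exact (measure_union_le _ _).trans (add_le_add h1 h2)

/-! ### renewal -/

/-- no occurrence has been completed by time `m` -/
def QQ (X : ℕ → Ω → ℤ) (n : ℕ) (L : ℤ) (m : ℕ) : Set Ω := {ω | ∀ b, b + n ≤ m → ω ∉ FPe X b n L}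

/-- the first occurrence starts at `b` -/
def Fst (X : ℕ → Ω → ℤ) (n : ℕ) (L : ℤ) (b : ℕ) : Set Ω :=
  {ω | ω ∈ FPe X b n L ∧ ∀ b' < b, ω ∉ FPe X b' n L}

omit [MeasurableSpace Ω] in
theorem QQ_det (X : ℕ → Ω → ℤ) (n : ℕ) (L : ℤ) (m : ℕ) : Det X 0 m (QQ X n L m) := by
  intro ω ω' h hm
  have h1 : ∀ b, b + n ≤ m → ω ∉ FPe X b n L := hm
  show ∀ b, b + n ≤ m → ω' ∉ FPe X b n L
  intro b hb hcon
  exact h1 b hb (FPe_det X b n L (Nat.zero_le _) hb ω' ω (fun i hi hi' => (h i hi hi').symm) hcon)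

omit [MeasurableSpace Ω] in
theorem Fst_det (X : ℕ → Ω → ℤ) (n : ℕ) (L : ℤ) (b : ℕ) {d : ℕ} (hd : b + n ≤ d) :
    Det X 0 d (Fst X n L b) := by
  intro ω ω' h hm
  have h1 : ω ∈ FPe X b n L ∧ ∀ b' < b, ω ∉ FPe X b' n L := hm
  refine ⟨FPe_det X b n L (Nat.zero_le _) hd ω ω' h h1.1, fun b' hb' hcon => ?_⟩
  exact h1.2 b' hb' (FPe_det X b' n L (Nat.zero_le _) (by omega) ω' ω
    (fun i hi hi' => (h i hi hi').symm) hcon)

omit [MeasurableSpace Ω] in
theorem Fst_disj (X : ℕ → Ω → ℤ) (n : ℕ) (L : ℤ) {b b' : ℕ} (h : b ≠ b') :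
    Disjoint (Fst X n L b) (Fst X n L b') := by
  rw [Set.disjoint_left]
  rintro ω ⟨h1, h2⟩ ⟨h3, h4⟩
  rcases lt_or_gt_of_ne h with h5 | h5
  · exact h4 b h5 h1
  · exact h2 b' h5 h3

theorem mix {P : Measure Ω} {H : Ω → ℤ} (hH : Measurable H) {A : Set Ω} (hA : MeasurableSet A)
    {Fam : ℤ → Set Ω} (hF : ∀ s, MeasurableSet (Fam s)) (φ : ℤ → ℝ≥0∞)
    (h : ∀ s, P ((A ∩ {ω | H ω = s}) ∩ Fam s) = P (A ∩ {ω | H ω = s}) * φ s) :
    P (A ∩ {ω | ω ∈ Fam (H ω)}) = ∫⁻ ω in A, φ (H ω) ∂P := by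
  have hms : ∀ s, MeasurableSet {ω | H ω = s} := fun s => hH (measurableSet_singleton s)
  have e1 : A ∩ {ω | ω ∈ Fam (H ω)} = ⋃ s : ℤ, (A ∩ {ω | H ω = s}) ∩ Fam s := by
    ext ω
    simp only [Set.mem_inter_iff, Set.mem_ofPred_eq, Set.mem_iUnion]
    constructor
    · rintro ⟨h1, h2⟩
      exact ⟨H ω, ⟨h1, rfl⟩, h2⟩
    · rintro ⟨s, ⟨h1, h2⟩, h3⟩
      rw [← h2] at h3
      exact ⟨h1, h3⟩
  rw [e1, measure_iUnion]
  · simp_rw [h]
    have e2 : ∫⁻ ω in A, φ (H ω) ∂P = ∫⁻ s, φ s ∂(Measure.map H (P.restrict A)) := by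
      rw [lintegral_map (measurable_of_countable φ) hH]
    rw [e2, lintegral_countable']
    congr 1
    funext s
    rw [Measure.map_apply hH (measurableSet_singleton s),
      Measure.restrict_apply (hH (measurableSet_singleton s)), mul_comm]
    congr 2
    rw [Set.inter_comm]
    rfl
  · intro s s' hss
    simp only [Function.onFun]
    rw [Set.disjoint_left]
    rintro ω ⟨⟨_, h1⟩, _⟩ ⟨⟨_, h2⟩, _⟩
    have a1 : H ω = s := h1
    have a2 : H ω = s' := h2
    exact hss (a1.symm.trans a2)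
  · intro s
    exact (hA.inter (hms s)).inter (hF s)

omit [MeasurableSpace Ω] in
theorem overlap (X : ℕ → Ω → ℤ) (n : ℕ) (L : ℤ) (b j : ℕ) (hj : 0 < j) (hjn : j ≤ n) (ω : Ω)
    (hO : ω ∈ FPe X b n L) :
    ω ∈ FPe X (b+j) n L ↔ ω ∈ FPe X (b+n) j (-D X b j ω) := by
  have hO' : D X b n ω = -L ∧ ∀ i < n, D X b n ω < D X b i ω := hO
  obtain ⟨hO1, hO2⟩ := hO'
  have d1 : ∀ i, D X b (j+i) ω = D X b j ω + D X (b+j) i ω := fun i => D_add X b j i ω
  have d2 : ∀ i, D X b (n+i) ω = D X b n ω + D X (b+n) i ω := fun i => D_add X b n i ω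
  have d3 := d1 n
  have d4 := d2 j
  have e1 : j + n = n + j := by ring
  rw [e1] at d3
  have d0 : D X (b+n) 0 ω = 0 := D_zero _ _ _
  constructor
  · intro h
    have h' : D X (b+j) n ω = -L ∧ ∀ i < n, D X (b+j) n ω < D X (b+j) i ω := h
    obtain ⟨h1, h2⟩ := h'
    show D X (b+n) j ω = - -D X b j ω ∧ ∀ i < j, D X (b+n) j ω < D X (b+n) i ω
    refine ⟨by omega, fun i hi => ?_⟩
    have h3 := h2 (n-j+i) (by omega)
    have h4 := d1 (n-j+i)
    have e2 : j + (n-j+i) = n + i := by omega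
    rw [e2] at h4
    have h5 := d2 i
    omega
  · intro h
    have h' : D X (b+n) j ω = - -D X b j ω ∧ ∀ i < j, D X (b+n) j ω < D X (b+n) i ω := h
    obtain ⟨h1, h2⟩ := h'
    show D X (b+j) n ω = -L ∧ ∀ i < n, D X (b+j) n ω < D X (b+j) i ω
    refine ⟨by omega, fun i hi => ?_⟩
    have h3 := h2 0 hj
    have h4 := d1 i
    by_cases hc : j + i < n
    · have h5 := hO2 (j+i) hc
      omega
    · have h5 := d2 (j+i-n)
      have e2 : n + (j+i-n) = j + i := by omega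
      rw [e2] at h5
      have h6 := h2 (j+i-n) (by omega)
      omega

theorem P_overlap {P : Measure Ω} [IsProbabilityMeasure P] {X : ℕ → Ω → ℤ} (hW : Walk P X)
    (n : ℕ) (L : ℤ) (b j : ℕ) (hj : 0 < j) (hjn : j ≤ n) :
    P (Fst X n L b ∩ FPe X (b+j) n L) =
      ∫⁻ ω in Fst X n L b, ENNReal.ofReal (gf j (D X b j ω)) ∂P := by
  have hA := det_meas hW.meas (Fst_det X n L b (le_refl _))
  have hH : Measurable (D X b j) := detF_meas hW.meas (D_detF X b j (le_refl _) (le_refl _)) 0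
  have h1 := mix (P := P) hH hA (Fam := fun s => FPe X (b+n) j (-s))
    (fun s => det_meas hW.meas (FPe_det X (b+n) j (-s) (le_refl _) (le_refl _)))
    (fun s => ENNReal.ofReal (gf j s)) (by
      intro s
      have hd : Det X 0 (b+n) (Fst X n L b ∩ {ω | D X b j ω = s}) := by
        intro ω ω' h hm
        refine ⟨Fst_det X n L b (le_refl _) ω ω' h hm.1, ?_⟩
        have h2 : D X b j ω = s := hm.2
        show D X b j ω' = s
        rw [← D_detF X b j (Nat.zero_le _) (by omega) ω ω' h]; exact h2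
      rw [indep_det hW (le_refl (b+n)) hd (FPe_det X (b+n) j (-s) (le_refl _) (le_refl _)), P_FPe hW]
      rfl)
  rw [← h1]
  congr 1
  ext ω
  constructor
  · rintro ⟨h2, h3⟩
    exact ⟨h2, (overlap X n L b j hj hjn ω h2.1).mp h3⟩
  · rintro ⟨h2, h3⟩
    exact ⟨h2, (overlap X n L b j hj hjn ω h2.1).mpr h3⟩

/-- Decomposition over the start of the first occurrence. -/
theorem decomp {P : Measure Ω} [IsProbabilityMeasure P] {X : ℕ → Ω → ℤ} (hW : Walk P X)
    (n : ℕ) (L : ℤ) (m : ℕ) :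
    P (QQ X n L m ∩ FPe X m n L) =
      ∑ j ∈ Finset.range n, if j ≤ m then P (Fst X n L (m-j) ∩ FPe X ((m-j)+j) n L) else 0 := by
  have e1 : QQ X n L m ∩ FPe X m n L =
      ⋃ j ∈ Finset.range n, {ω | j ≤ m ∧ ω ∈ Fst X n L (m-j) ∩ FPe X ((m-j)+j) n L} := by
    ext ω
    simp only [Set.mem_iUnion, Finset.mem_range, Set.mem_ofPred_eq]
    constructor
    · rintro ⟨h1, h2⟩
      have h1' : ∀ b, b + n ≤ m → ω ∉ FPe X b n L := h1
      classical
      have hex : ∃ b, ω ∈ FPe X b n L := ⟨m, h2⟩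
      have hf := Nat.find_spec hex
      have hmin : ∀ b' < Nat.find hex, ω ∉ FPe X b' n L := fun b' hb' => Nat.find_min hex hb'
      have hle : Nat.find hex ≤ m := Nat.find_min' hex h2
      have hgt : m < Nat.find hex + n := by
        by_contra hcon
        push Not at hcon
        exact h1' _ hcon hf
      refine ⟨m - Nat.find hex, by omega, by omega, ?_⟩
      have e2 : m - (m - Nat.find hex) = Nat.find hex := by omega
      have e3 : Nat.find hex + (m - Nat.find hex) = m := by omega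
      rw [e2, e3]
      exact ⟨⟨hf, hmin⟩, h2⟩
    · rintro ⟨j, hj, hjm, h1, h2⟩
      have e3 : m - j + j = m := by omega
      rw [e3] at h2
      refine ⟨?_, h2⟩
      intro b hb
      exact h1.2 b (by omega)
  rw [e1, measure_biUnion_finset]
  · apply Finset.sum_congr rfl
    intro j _
    split_ifs with h
    · congr 1
      ext ω
      simp only [Set.mem_ofPred_eq]
      exact ⟨fun h' => h'.2, fun h' => ⟨h, h'⟩⟩
    · have : {ω | j ≤ m ∧ ω ∈ Fst X n L (m-j) ∩ FPe X ((m-j)+j) n L} = ∅ := by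
        ext ω
        simp [h]
      rw [this, measure_empty]
  · intro j hj j' hj' hjj
    simp only [Function.onFun]
    rw [Set.disjoint_left]
    rintro ω ⟨h1, h2, _⟩ ⟨h3, h4, _⟩
    have : m - j ≠ m - j' := by omega
    exact (Set.disjoint_left.mp (Fst_disj X n L this)) h2 h4
  · intro j _
    by_cases h : j ≤ m
    · have : {ω | j ≤ m ∧ ω ∈ Fst X n L (m-j) ∩ FPe X ((m-j)+j) n L} =
          Fst X n L (m-j) ∩ FPe X ((m-j)+j) n L := by
        ext ω; simp [h]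
      rw [this]
      exact (det_meas hW.meas (Fst_det X n L _ (le_refl _))).inter
        (det_meas hW.meas (FPe_det X _ n L (le_refl _) (le_refl _)))
    · have : {ω | j ≤ m ∧ ω ∈ Fst X n L (m-j) ∩ FPe X ((m-j)+j) n L} = ∅ := by
        ext ω; simp [h]
      rw [this]
      exact MeasurableSet.empty

theorem tsum_shift (F : ℕ → ℝ≥0∞) (j : ℕ) : ∑' m, (if j ≤ m then F (m-j) else 0) = ∑' b, F b := by
  have h := Function.Injective.tsum_eq (f := fun m => if j ≤ m then F (m-j) else 0)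
    (g := fun b : ℕ => b + j) (add_left_injective j) (by
      intro m hm
      rw [Function.mem_support] at hm
      have : j ≤ m := by
        by_contra hcon
        simp [hcon] at hm
      exact ⟨m - j, by simp [this]⟩)
  rw [← h]
  congr 1
  funext b
  simp

/-- Renewal identity. -/
theorem renewal {P : Measure Ω} [IsProbabilityMeasure P] {X : ℕ → Ω → ℤ} (hW : Walk P X)
    (N : ℕ) (L : ℤ) :
    (∑' m, P (QQ X (N+1) L m)) * ENNReal.ofReal (f (N+1) L) =
      ∑' b, ∫⁻ ω in Fst X (N+1) L b, ENNReal.ofReal (1 + GG X b N ω) ∂P := by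
  rw [← ENNReal.tsum_mul_right]
  have h1 : ∀ m, P (QQ X (N+1) L m) * ENNReal.ofReal (f (N+1) L) =
      ∑ j ∈ Finset.range (N+1), if j ≤ m then P (Fst X (N+1) L (m-j) ∩ FPe X ((m-j)+j) (N+1) L) else 0 := by
    intro m
    rw [← decomp hW (N+1) L m,
      indep_det hW (le_refl m) (QQ_det X (N+1) L m) (FPe_det X m (N+1) L (le_refl _) (le_refl _)),
      P_FPe hW]
  simp_rw [h1]
  rw [Summable.tsum_finsetSum (fun _ _ => ENNReal.summable)]
  have h2 : ∀ j, ∑' m, (if j ≤ m then P (Fst X (N+1) L (m-j) ∩ FPe X ((m-j)+j) (N+1) L) else 0) =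
      ∑' b, P (Fst X (N+1) L b ∩ FPe X (b+j) (N+1) L) := fun j =>
    tsum_shift (fun b => P (Fst X (N+1) L b ∩ FPe X (b+j) (N+1) L)) j
  simp_rw [h2]
  rw [← Summable.tsum_finsetSum (fun _ _ => ENNReal.summable)]
  congr 1
  funext b
  rw [Finset.sum_range_succ']
  have h3 : P (Fst X (N+1) L b ∩ FPe X (b+0) (N+1) L) = ∫⁻ ω in Fst X (N+1) L b, 1 ∂P := by
    rw [setLIntegral_one]
    congr 1
    ext ω
    exact ⟨fun h => h.1, fun h => ⟨h, h.1⟩⟩
  rw [h3]
  have h4 : ∀ j ∈ Finset.range N, P (Fst X (N+1) L b ∩ FPe X (b+(j+1)) (N+1) L) =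
      ∫⁻ ω in Fst X (N+1) L b, ENNReal.ofReal (gf (j+1) (D X b (j+1) ω)) ∂P := by
    intro j hj
    rw [Finset.mem_range] at hj
    exact P_overlap hW (N+1) L b (j+1) (by omega) (by omega)
  rw [Finset.sum_congr rfl h4]
  have hmeas : ∀ j, Measurable (fun ω => ENNReal.ofReal (gf (j+1) (D X b (j+1) ω))) := by
    intro j
    have : DetF X b (b+(j+1)) (fun ω => ENNReal.ofReal (gf (j+1) (D X b (j+1) ω))) := by
      intro ω ω' h
      have := D_detF X b (j+1) (le_refl _) (le_refl _) ω ω' h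
      show ENNReal.ofReal (gf (j+1) (D X b (j+1) ω)) = ENNReal.ofReal (gf (j+1) (D X b (j+1) ω'))
      rw [this]
    exact detF_meas hW.meas this 0
  rw [← lintegral_finsetSum _ (fun j _ => hmeas j), ← lintegral_add_right _ measurable_const]
  apply lintegral_congr
  intro ω
  unfold GG
  rw [ENNReal.ofReal_add zero_le_one (Finset.sum_nonneg (fun i _ => gf_nonneg _ _)),
    ENNReal.ofReal_sum_of_nonneg (fun i _ => gf_nonneg _ _), ENNReal.ofReal_one, add_comm]

end Pool.Agent.R974.FP
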