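import Mathlib
import Pool.Agent.R974.FP.R1

/-! Two-sided bounds for the expected waiting time at a fixed length. -/

namespace Pool.Agent.R974.FP

open MeasureTheory ProbabilityTheory Filter Topology
open scoped ENNReal

variable {Ω : Type*} [MeasurableSpace Ω]

theorem gf_le (i : ℕ) (s : ℤ) : gf (i+1) s ≤ 4 * (1/((i:ℝ)+1)) := by
  unfold gf
  have := f_le (i+1) (by omega) (-s)
  push_cast at this
  rw [mul_one_div]; exact this

omit [MeasurableSpace Ω] in
theorem GG_le (X : ℕ → Ω → ℤ) (b r : ℕ) (ω : Ω) : GG X b r ω ≤ 4 * (1 + Real.log r) := by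
  unfold GG
  calc _ ≤ ∑ i ∈ Finset.range r, 4 * (1/((i:ℝ)+1)) := Finset.sum_le_sum (fun i _ => gf_le i _)
    _ = 4 * ∑ i ∈ Finset.range r, (1/((i:ℝ)+1)) := by rw [Finset.mul_sum]
    _ ≤ _ := mul_le_mul_of_nonneg_left (harm_le r) (by norm_num)

omit [MeasurableSpace Ω] in
theorem GG_split (X : ℕ → Ω → ℤ) (b J N : ℕ) (hJ : J ≤ N) (ω : Ω) :
    GG X b J ω ≤ GG X b N ω ∧ GG X b N ω ≤ GG X b J ω + 4 * ((N:ℝ) - J)/((J:ℝ)+1) := by
  have e : GG X b N ω = GG X b J ω + ∑ i ∈ Finset.Ico J N, gf (i+1) (D X b (i+1) ω) := by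
    unfold GG
    rw [Finset.sum_range_add_sum_Ico _ hJ]
  rw [e]
  constructor
  · have : 0 ≤ ∑ i ∈ Finset.Ico J N, gf (i+1) (D X b (i+1) ω) :=
      Finset.sum_nonneg (fun i _ => gf_nonneg _ _)
    linarith
  · have : ∑ i ∈ Finset.Ico J N, gf (i+1) (D X b (i+1) ω) ≤
        ∑ i ∈ Finset.Ico J N, 4 * (1/((J:ℝ)+1)) := by
      apply Finset.sum_le_sum
      intro i hi
      rw [Finset.mem_Ico] at hi
      refine (gf_le i _).trans ?_
      apply mul_le_mul_of_nonneg_left _ (by norm_num)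
      apply div_le_div_of_nonneg_left (by norm_num) (by positivity)
      have : (J:ℝ) ≤ i := by exact_mod_cast hi.1
      linarith
    rw [Finset.sum_const, Nat.card_Ico, nsmul_eq_mul, Nat.cast_sub hJ] at this
    have e2 : ((N:ℝ) - J) * (4 * (1/((J:ℝ)+1))) = 4 * ((N:ℝ) - J)/((J:ℝ)+1) := by ring
    rw [e2] at this
    linarith

theorem Fst_meas {X : ℕ → Ω → ℤ} (hX : ∀ i, Measurable (X i)) (n : ℕ) (L : ℤ) (b : ℕ) :
    MeasurableSet (Fst X n L b) := det_meas hX (Fst_det X n L b (le_refl _))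

theorem Bad_meas {X : ℕ → Ω → ℤ} (hX : ∀ i, Measurable (X i)) (b J : ℕ) (t : ℝ) :
    MeasurableSet (Bad X b J t) := det_meas hX (Bad_det X b J t (le_refl _) (le_refl _))

theorem sum_Fst {P : Measure Ω} [IsProbabilityMeasure P] {X : ℕ → Ω → ℤ} (hX : ∀ i, Measurable (X i))
    (n : ℕ) (L : ℤ) : ∑' b, P (Fst X n L b) = P (⋃ b, Fst X n L b) := by
  rw [measure_iUnion]
  · intro b b' hbb
    exact Fst_disj X n L hbb
  · exact fun b => Fst_meas hX n L b

theorem ET_crude {P : Measure Ω} [IsProbabilityMeasure P] {X : ℕ → Ω → ℤ} (hW : Walk P X)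
    (N : ℕ) (L : ℤ) :
    (∑' m, P (QQ X (N+1) L m)) * ENNReal.ofReal (f (N+1) L) ≤ ENNReal.ofReal (5 + 4 * Real.log N) := by
  rw [renewal hW]
  have h1 : ∀ b, ∫⁻ ω in Fst X (N+1) L b, ENNReal.ofReal (1 + GG X b N ω) ∂P ≤
      ENNReal.ofReal (5 + 4 * Real.log N) * P (Fst X (N+1) L b) := by
    intro b
    rw [← setLIntegral_const]
    apply lintegral_mono
    intro ω
    apply ENNReal.ofReal_le_ofReal
    have := GG_le X b N ω
    linarith
  refine (ENNReal.tsum_le_tsum h1).trans ?_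
  rw [ENNReal.tsum_mul_left, sum_Fst hW.meas]
  calc _ ≤ ENNReal.ofReal (5 + 4 * Real.log N) * 1 := mul_le_mul_right prob_le_one _
    _ = _ := mul_one _

theorem ET_fin {P : Measure Ω} [IsProbabilityMeasure P] {X : ℕ → Ω → ℤ} (hW : Walk P X)
    (N : ℕ) (L : ℤ) (hp : 0 < f (N+1) L) : (∑' m, P (QQ X (N+1) L m)) ≠ ⊤ := by
  intro h
  have h1 := ET_crude hW N L
  rw [h, ENNReal.top_mul (by simpa using hp)] at h1
  exact absurd h1 (not_le.mpr ENNReal.ofReal_lt_top)

theorem sum_Fst_one {P : Measure Ω} [IsProbabilityMeasure P] {X : ℕ → Ω → ℤ} (hW : Walk P X)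
    (n : ℕ) (L : ℤ) (hfin : (∑' m, P (QQ X n L m)) ≠ ⊤) : ∑' b, P (Fst X n L b) = 1 := by
  rw [sum_Fst hW.meas]
  have hm : MeasurableSet (⋃ b, Fst X n L b) := MeasurableSet.iUnion (fun b => Fst_meas hW.meas n L b)
  rw [← prob_compl_eq_zero_iff hm]
  by_contra hne
  have h1 : ∀ m, P (⋃ b, Fst X n L b)ᶜ ≤ P (QQ X n L m) := by
    intro m
    apply measure_mono
    intro ω hω b _ hcon
    apply hω
    classical
    have hex : ∃ b, ω ∈ FPe X b n L := ⟨b, hcon⟩
    rw [Set.mem_iUnion]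
    exact ⟨Nat.find hex, Nat.find_spec hex, fun b' hb' => Nat.find_min hex hb'⟩
  have h2 := ENNReal.tsum_le_tsum h1
  rw [ENNReal.tsum_const_eq_top_of_ne_zero hne] at h2
  exact hfin (top_le_iff.mp h2)

theorem sum_Bad {P : Measure Ω} [IsProbabilityMeasure P] {X : ℕ → Ω → ℤ} (hW : Walk P X)
    (N J : ℕ) (hJ : J ≤ N) (L : ℤ) (t δ : ℝ) (hB : ∀ b, P (Bad X b J t) ≤ ENNReal.ofReal δ) :
    ∑' b, P (Fst X (N+1) L b ∩ Bad X b J t) ≤
      (∑' m, P (QQ X (N+1) L m)) * (ENNReal.ofReal δ * ENNReal.ofReal (4/((N:ℝ)+1-J))) := by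
  rw [← ENNReal.tsum_mul_right]
  apply ENNReal.tsum_le_tsum
  intro b
  have hsub : Fst X (N+1) L b ∩ Bad X b J t ⊆ (QQ X (N+1) L b ∩ Bad X b J t) ∩
      {ω | ω ∈ (fun s : ℤ => FPe X (b+J) (N+1-J) (L+s)) (D X b J ω)} := by
    rintro ω ⟨⟨h1, h2⟩, h3⟩
    have h1' : D X b (N+1) ω = -L ∧ ∀ i < N+1, D X b (N+1) ω < D X b i ω := h1
    refine ⟨⟨fun b' hb' => h2 b' (by omega), h3⟩, ?_⟩
    show D X (b+J) (N+1-J) ω = -(L + D X b J ω) ∧
      ∀ i < N+1-J, D X (b+J) (N+1-J) ω < D X (b+J) i ω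
    have e1 := D_add X b J (N+1-J) ω
    have e2 : J + (N+1-J) = N+1 := by omega
    rw [e2] at e1
    refine ⟨by omega, fun i hi => ?_⟩
    have e3 := D_add X b J i ω
    have h4 := h1'.2 (J+i) (by omega)
    omega
  refine (measure_mono hsub).trans ?_
  have hA : Det X 0 (b+J) (QQ X (N+1) L b ∩ Bad X b J t) := by
    intro ω ω' h hm
    exact ⟨QQ_det X (N+1) L b ω ω' (fun i hi hi' => h i hi (by omega)) hm.1,
      Bad_det X b J t (Nat.zero_le _) (le_refl _) ω ω' h hm.2⟩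
  have hH : Measurable (D X b J) := detF_meas hW.meas (D_detF X b J (le_refl _) (le_refl _)) 0
  rw [mix (P := P) hH (det_meas hW.meas hA) (Fam := fun s : ℤ => FPe X (b+J) (N+1-J) (L+s))
    (fun s => det_meas hW.meas (FPe_det X (b+J) (N+1-J) (L+s) (le_refl _) (le_refl _)))
    (fun s => ENNReal.ofReal (f (N+1-J) (L+s))) (by
      intro s
      have hd : Det X 0 (b+J) ((QQ X (N+1) L b ∩ Bad X b J t) ∩ {ω | D X b J ω = s}) := by
        intro ω ω' h hm
        refine ⟨hA ω ω' h hm.1, ?_⟩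
        have h2 : D X b J ω = s := hm.2
        show D X b J ω' = s
        rw [← D_detF X b J (Nat.zero_le _) (le_refl _) ω ω' h]; exact h2
      rw [indep_det hW (le_refl (b+J)) hd (FPe_det X (b+J) (N+1-J) (L+s) (le_refl _) (le_refl _)), P_FPe hW])]
  have hc : ((N+1-J:ℕ):ℝ) = (N:ℝ)+1-J := by
    rw [Nat.cast_sub (by omega)]; push_cast; ring
  calc ∫⁻ ω in QQ X (N+1) L b ∩ Bad X b J t, ENNReal.ofReal (f (N+1-J) (L + D X b J ω)) ∂P
      ≤ ∫⁻ ω in QQ X (N+1) L b ∩ Bad X b J t, ENNReal.ofReal (4/((N:ℝ)+1-J)) ∂P := by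
        apply lintegral_mono
        intro ω
        apply ENNReal.ofReal_le_ofReal
        have := f_le (N+1-J) (by omega) (L + D X b J ω)
        rw [hc] at this
        exact this
    _ = ENNReal.ofReal (4/((N:ℝ)+1-J)) * P (QQ X (N+1) L b ∩ Bad X b J t) := setLIntegral_const _ _
    _ = ENNReal.ofReal (4/((N:ℝ)+1-J)) * (P (QQ X (N+1) L b) * P (Bad X b J t)) := by
        rw [indep_det hW (le_refl b) (QQ_det X (N+1) L b) (Bad_det X b J t (le_refl _) (le_refl _))]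
    _ ≤ ENNReal.ofReal (4/((N:ℝ)+1-J)) * (P (QQ X (N+1) L b) * ENNReal.ofReal δ) :=
        mul_le_mul_right (mul_le_mul_right (hB b) _) _
    _ = _ := by ring

theorem bounds {P : Measure Ω} [IsProbabilityMeasure P] {X : ℕ → Ω → ℤ} (hW : Walk P X)
    (N J : ℕ) (hJ : J ≤ N) (L : ℤ) (hp : 0 < f (N+1) L) (t δ : ℝ) (ht : 0 ≤ t) (hδ : 0 ≤ δ)
    (hmt : 0 ≤ mu J - t)
    (hB : ∀ b, P (Bad X b J t) ≤ ENNReal.ofReal δ) (e : ℝ) (he : e = (∑' m, P (QQ X (N+1) L m)).toReal) :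
    f (N+1) L * e ≤ 1 + mu J + t + 4 * ((N:ℝ) - J)/((J:ℝ)+1) +
        (e * (δ * (4/((N:ℝ)+1-J)))) * (5 + 4 * Real.log N) ∧
    (mu J - t) * (1 - e * (δ * (4/((N:ℝ)+1-J)))) ≤ f (N+1) L * e := by
  have hfin := ET_fin hW N L hp
  set ET := ∑' m, P (QQ X (N+1) L m) with hET
  have he0 : 0 ≤ e := by rw [he]; exact ENNReal.toReal_nonneg
  have hEe : ET = ENNReal.ofReal e := by rw [he, ENNReal.ofReal_toReal hfin]
  have hNJ : (0:ℝ) < (N:ℝ)+1-J := by
    have : (J:ℝ) ≤ N := by exact_mod_cast hJ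
    linarith
  set η := e * (δ * (4/((N:ℝ)+1-J))) with hη
  have hη0 : 0 ≤ η := by positivity
  have hlogN : 0 ≤ Real.log N := Real.log_natCast_nonneg N
  have hsB : ∑' b, P (Fst X (N+1) L b ∩ Bad X b J t) ≤ ENNReal.ofReal η := by
    refine (sum_Bad hW N J hJ L t δ hB).trans ?_
    rw [← hET, hEe, ← ENNReal.ofReal_mul hδ, ← ENNReal.ofReal_mul he0]
  have hone := sum_Fst_one hW (N+1) L hfin
  have hren := renewal hW N L (P := P)
  rw [← hET, hEe, ← ENNReal.ofReal_mul he0] at hren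
  have hfe : 0 ≤ f (N+1) L * e := mul_nonneg hp.le he0
  have hR : 0 ≤ 4 * ((N:ℝ) - J)/((J:ℝ)+1) := by
    apply div_nonneg _ (by positivity)
    have : (J:ℝ) ≤ N := by exact_mod_cast hJ
    linarith
  constructor
  · -- upper bound
    have h1 : ∀ b, ∫⁻ ω in Fst X (N+1) L b, ENNReal.ofReal (1 + GG X b N ω) ∂P ≤
        ENNReal.ofReal (1 + mu J + t + 4 * ((N:ℝ) - J)/((J:ℝ)+1)) * P (Fst X (N+1) L b) +
        ENNReal.ofReal (5 + 4 * Real.log N) * P (Fst X (N+1) L b ∩ Bad X b J t) := by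
      intro b
      rw [← lintegral_inter_add_sdiff _ (Fst X (N+1) L b) (Bad_meas hW.meas b J t), add_comm]
      apply add_le_add
      · calc ∫⁻ ω in Fst X (N+1) L b \ Bad X b J t, ENNReal.ofReal (1 + GG X b N ω) ∂P
            ≤ ∫⁻ ω in Fst X (N+1) L b \ Bad X b J t,
              ENNReal.ofReal (1 + mu J + t + 4 * ((N:ℝ) - J)/((J:ℝ)+1)) ∂P := by
              apply setLIntegral_mono' ((Fst_meas hW.meas _ _ _).diff (Bad_meas hW.meas _ _ _))
              intro ω hω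
              apply ENNReal.ofReal_le_ofReal
              have h2 : ¬ (mu J + t ≤ GG X b J ω ∨ GG X b J ω ≤ mu J - t) := hω.2
              push Not at h2
              have h3 := (GG_split X b J N hJ ω).2
              linarith [h2.1]
          _ = ENNReal.ofReal (1 + mu J + t + 4 * ((N:ℝ) - J)/((J:ℝ)+1)) *
              P (Fst X (N+1) L b \ Bad X b J t) := setLIntegral_const _ _
          _ ≤ _ := mul_le_mul_right (measure_mono Set.sdiff_subset) _
      · rw [← setLIntegral_const]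
        apply lintegral_mono
        intro ω
        apply ENNReal.ofReal_le_ofReal
        have := GG_le X b N ω
        linarith
    have h2 := ENNReal.tsum_le_tsum h1
    rw [← hren, ENNReal.tsum_add, ENNReal.tsum_mul_left, ENNReal.tsum_mul_left, hone, mul_one] at h2
    have h3 : ENNReal.ofReal (e * f (N+1) L) ≤ ENNReal.ofReal (1 + mu J + t + 4 * ((N:ℝ) - J)/((J:ℝ)+1) +
        η * (5 + 4 * Real.log N)) := by
      refine h2.trans ?_
      rw [ENNReal.ofReal_add (by linarith) (mul_nonneg hη0 (by linarith)), mul_comm η,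
        ENNReal.ofReal_mul (by linarith)]
      exact add_le_add (le_refl _) (mul_le_mul_right hsB _)
    rw [mul_comm]
    rw [ENNReal.ofReal_le_ofReal_iff] at h3
    · exact h3
    · have : 0 ≤ η * (5 + 4 * Real.log N) := mul_nonneg hη0 (by linarith)
      linarith
  · -- lower bound
    have h1 : ∀ b, ENNReal.ofReal (mu J - t) * P (Fst X (N+1) L b \ Bad X b J t) ≤
        ∫⁻ ω in Fst X (N+1) L b, ENNReal.ofReal (1 + GG X b N ω) ∂P := by
      intro b
      calc ENNReal.ofReal (mu J - t) * P (Fst X (N+1) L b \ Bad X b J t)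
          = ∫⁻ ω in Fst X (N+1) L b \ Bad X b J t, ENNReal.ofReal (mu J - t) ∂P :=
            (setLIntegral_const _ _).symm
        _ ≤ ∫⁻ ω in Fst X (N+1) L b \ Bad X b J t, ENNReal.ofReal (1 + GG X b N ω) ∂P := by
            apply setLIntegral_mono' ((Fst_meas hW.meas _ _ _).diff (Bad_meas hW.meas _ _ _))
            intro ω hω
            apply ENNReal.ofReal_le_ofReal
            have h2 : ¬ (mu J + t ≤ GG X b J ω ∨ GG X b J ω ≤ mu J - t) := hω.2
            push Not at h2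
            have h3 := (GG_split X b J N hJ ω).1
            linarith [h2.2]
        _ ≤ _ := lintegral_mono_set Set.sdiff_subset
    have h2 := ENNReal.tsum_le_tsum h1
    rw [← hren, ENNReal.tsum_mul_left] at h2
    have h3 : (1:ℝ≥0∞) ≤ ENNReal.ofReal η + ∑' b, P (Fst X (N+1) L b \ Bad X b J t) := by
      rw [← hone]
      have : ∀ b, P (Fst X (N+1) L b) = P (Fst X (N+1) L b ∩ Bad X b J t) +
          P (Fst X (N+1) L b \ Bad X b J t) := fun b =>
        (measure_inter_add_sdiff _ (Bad_meas hW.meas b J t)).symm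
      simp_rw [this]
      rw [ENNReal.tsum_add]
      exact add_le_add hsB (le_refl _)
    by_cases hη1 : 1 ≤ η
    · have : (mu J - t) * (1 - η) ≤ 0 := mul_nonpos_of_nonneg_of_nonpos hmt (by linarith)
      linarith
    · push Not at hη1
      have h4 : ENNReal.ofReal (1 - η) ≤ ∑' b, P (Fst X (N+1) L b \ Bad X b J t) := by
        rw [ENNReal.ofReal_sub _ hη0, ENNReal.ofReal_one, tsub_le_iff_left]
        exact h3
      have h5 : ENNReal.ofReal ((mu J - t) * (1 - η)) ≤ ENNReal.ofReal (e * f (N+1) L) := by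
        rw [ENNReal.ofReal_mul hmt]
        exact (mul_le_mul_right h4 _).trans h2
      rw [mul_comm (f (N+1) L)]
      rw [ENNReal.ofReal_le_ofReal_iff (by rw [mul_comm]; exact hfe)] at h5
      exact h5

theorem bound_crude {P : Measure Ω} [IsProbabilityMeasure P] {X : ℕ → Ω → ℤ} (hW : Walk P X)
    (N : ℕ) (L : ℤ) (hp : 0 < f (N+1) L) (e : ℝ) (he : e = (∑' m, P (QQ X (N+1) L m)).toReal) :
    0 ≤ e ∧ f (N+1) L * e ≤ 5 + 4 * Real.log N := by
  have hfin := ET_fin hW N L hp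
  have h1 := ET_crude hW N L
  have he0 : 0 ≤ e := by rw [he]; exact ENNReal.toReal_nonneg
  refine ⟨he0, ?_⟩
  have hEe : (∑' m, P (QQ X (N+1) L m)) = ENNReal.ofReal e := by rw [he, ENNReal.ofReal_toReal hfin]
  have hlogN : 0 ≤ Real.log N := Real.log_natCast_nonneg N
  rw [hEe, ← ENNReal.ofReal_mul he0, ENNReal.ofReal_le_ofReal_iff (by linarith)] at h1
  linarith

end Pool.Agent.R974.FP
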