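import Mathlib
import Pool.Agent.R974.FP.R2

/-! Asymptotics. -/

namespace Pool.Agent.R974.FP

open MeasureTheory ProbabilityTheory Filter Topology
open scoped ENNReal

variable {Ω : Type*} [MeasurableSpace Ω]

theorem log_exp_tendsto (c : ℝ) (hc : 0 < c) :
    Tendsto (fun n : ℕ => (5 + 4 * Real.log n)^2 * Real.exp (-c * Real.log n)) atTop (𝓝 0) := by
  have hlog : Tendsto (fun n : ℕ => Real.log (n:ℝ)) atTop atTop :=
    Real.tendsto_log_atTop.comp tendsto_natCast_atTop_atTop
  have h0 : Tendsto (fun x : ℝ => Real.exp (-c * x)) atTop (𝓝 0) := by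
    have := Real.tendsto_pow_mul_exp_neg_atTop_nhds_zero 0
    have h2 : Tendsto (fun x : ℝ => c * x) atTop atTop := tendsto_id.const_mul_atTop hc
    have h3 := this.comp h2
    refine h3.congr (fun x => ?_)
    simp [Function.comp]
  have h1 : Tendsto (fun x : ℝ => x * Real.exp (-c * x)) atTop (𝓝 0) := by
    have := Real.tendsto_pow_mul_exp_neg_atTop_nhds_zero 1
    have h2 : Tendsto (fun x : ℝ => c * x) atTop atTop := tendsto_id.const_mul_atTop hc
    have h3 := (this.comp h2).const_mul (1/c)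
    rw [mul_zero] at h3
    refine h3.congr (fun x => ?_)
    simp only [Function.comp, pow_one]
    rw [neg_mul]
    field_simp
  have h2 : Tendsto (fun x : ℝ => x^2 * Real.exp (-c * x)) atTop (𝓝 0) := by
    have := Real.tendsto_pow_mul_exp_neg_atTop_nhds_zero 2
    have h2 : Tendsto (fun x : ℝ => c * x) atTop atTop := tendsto_id.const_mul_atTop hc
    have h3 := (this.comp h2).const_mul (1/c^2)
    rw [mul_zero] at h3
    refine h3.congr (fun x => ?_)
    simp only [Function.comp]
    rw [neg_mul]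
    field_simp
  have h3 : Tendsto (fun x : ℝ => (5 + 4*x)^2 * Real.exp (-c * x)) atTop (𝓝 0) := by
    have := ((h0.const_mul 25).add (h1.const_mul 40)).add (h2.const_mul 16)
    rw [mul_zero, mul_zero, mul_zero, add_zero, add_zero] at this
    refine this.congr (fun x => ?_)
    ring
  exact h3.comp hlog

/-- The key asymptotics in terms of `f` and the survival sums. -/
theorem key_asymp {P : Measure Ω} [IsProbabilityMeasure P] {X : ℕ → Ω → ℤ} (hW : Walk P X)
    (L : ℕ → ℤ) (κ : ℝ) (hκ : 0 < κ) (hf : Tendsto (fun n : ℕ => (n:ℝ) * f n (L n)) atTop (𝓝 κ)) :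
    Tendsto (fun n : ℕ => f n (L n) * (∑' m, P (QQ X n (L n) m)).toReal / Real.log n) atTop
      (𝓝 (1/(2*Real.pi))) := by
  have hpi := Real.pi_pos
  have hlog : Tendsto (fun n : ℕ => Real.log (n:ℝ)) atTop atTop :=
    Real.tendsto_log_atTop.comp tendsto_natCast_atTop_atTop
  have hinv : Tendsto (fun n : ℕ => (Real.log (n:ℝ))⁻¹) atTop (𝓝 0) := tendsto_inv_atTop_zero.comp hlog
  rw [Metric.tendsto_atTop']
  intro ε' hε'
  -- choose epsilon
  set ε : ℝ := min (ε'/4) (1/(8*Real.pi)) with hε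
  have hε0 : 0 < ε := lt_min (by linarith) (by positivity)
  have hε1 : ε ≤ ε'/4 := min_le_left _ _
  have hε2 : ε ≤ 1/(8*Real.pi) := min_le_right _ _
  set c : ℝ := ε^2/9216 with hc
  have hc0 : 0 < c := by positivity
  -- eventual facts
  have hA := (log_exp_tendsto c hc0).const_mul (64/κ)
  rw [mul_zero] at hA
  have hB := hinv.const_mul 8
  rw [mul_zero] at hB
  have ev1 : ∀ᶠ n : ℕ in atTop, 64/κ * ((5 + 4 * Real.log n)^2 * Real.exp (-c * Real.log n)) < min ε 1 :=
    hA.eventually_lt_const (lt_min hε0 one_pos)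
  have ev2 : ∀ᶠ n : ℕ in atTop, 8 * (Real.log (n:ℝ))⁻¹ < ε := hB.eventually_lt_const hε0
  have ev3 : ∀ᶠ n : ℕ in atTop, κ/2 < (n:ℝ) * f n (L n) := hf.eventually_const_lt (by linarith)
  have ev4 : ∀ᶠ n : ℕ in atTop, 1 < Real.log (n:ℝ) := hlog.eventually_gt_atTop 1
  have ev5 : ∀ᶠ n : ℕ in atTop, 2 * Real.pi * 8 < Real.log (n:ℝ) := hlog.eventually_gt_atTop _
  have hfinal : ∀ᶠ n : ℕ in atTop, dist (f n (L n) * (∑' m, P (QQ X n (L n) m)).toReal / Real.log n)
      (1/(2*Real.pi)) < ε' := by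
    filter_upwards [ev1, ev2, ev3, ev4, ev5, eventually_ge_atTop 2] with n h1 h2 h3 h4 h5 hn2
    have hn0 : (0:ℝ) < n := by
      have : 0 < n := by omega
      exact_mod_cast this
    have hlogpos : 0 < Real.log (n:ℝ) := by linarith
    have hp : 0 < f n (L n) := by
      by_contra hcon
      push Not at hcon
      have : (n:ℝ) * f n (L n) ≤ 0 := mul_nonpos_of_nonneg_of_nonpos hn0.le hcon
      linarith
    obtain ⟨N, rfl⟩ : ∃ N, n = N + 1 := ⟨n - 1, by omega⟩
    set J : ℕ := (N+1)/2 with hJdef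
    have hJ : J ≤ N := by omega
    have hJ1 : 1 ≤ J := by omega
    set l : ℝ := Real.log ((N+1:ℕ):ℝ) with hl
    set e : ℝ := (∑' m, P (QQ X (N+1) (L (N+1)) m)).toReal with he
    set F : ℝ := f (N+1) (L (N+1)) with hF
    set θ : ℝ := ε/4608 with hθ
    have hJr : (J:ℝ) ≤ ((N+1:ℕ):ℝ)/2 := by
      have : (2*J:ℕ) ≤ N+1 := by omega
      have h' : (2*(J:ℝ)) ≤ ((N+1:ℕ):ℝ) := by exact_mod_cast this
      linarith
    have hJr2 : ((N+1:ℕ):ℝ) ≤ 2*(J:ℝ) + 1 := by
      have : N+1 ≤ 2*J+1 := by omega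
      exact_mod_cast this
    have hJpos : (1:ℝ) ≤ J := by exact_mod_cast hJ1
    have hlJ : Real.log J ≤ l := by
      apply Real.log_le_log (by linarith)
      linarith
    have hδ : ∀ b, P (Bad X b J (ε * l)) ≤ ENNReal.ofReal (2 * Real.exp (-c * l)) := by
      intro b
      refine (P_Bad hW (by positivity : 0 ≤ θ) b J (ε*l)).trans ?_
      apply ENNReal.ofReal_le_ofReal
      apply mul_le_mul_of_nonneg_left _ (by norm_num)
      apply Real.exp_le_exp.mpr
      have e1 : -c * l = 1152 * θ^2 * (l + l) - θ * (ε * l) := by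
        rw [hc, hθ]; ring
      rw [e1]
      have : 1152 * θ^2 * (1 + Real.log J) ≤ 1152 * θ^2 * (l + l) := by
        apply mul_le_mul_of_nonneg_left _ (by positivity)
        linarith
      linarith
    -- bounds for mu J
    have hmuU : mu J ≤ 1/(2*Real.pi) * (l + 3) := by
      refine (mu_upper J).trans ?_
      apply mul_le_mul_of_nonneg_left _ (by positivity)
      linarith
    have hmuL : 1/(2*Real.pi) * (l - 2) ≤ mu J := by
      refine le_trans ?_ (mu_lower J)
      apply mul_le_mul_of_nonneg_left _ (by positivity)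
      have h6 : l - 1 ≤ Real.log ((J:ℝ)+2) := by
        have h7 : l ≤ Real.log (2*((J:ℝ)+2)) := by
          apply Real.log_le_log hn0
          linarith
        rw [Real.log_mul (by norm_num) (by linarith)] at h7
        have h8 : Real.log 2 ≤ 1 := by
          have := Real.log_two_lt_d9; linarith
        linarith
      linarith
    have hinv2 : 1/(2*Real.pi) ≤ 1/6 := by
      apply div_le_div_of_nonneg_left (by norm_num) (by norm_num)
      have := Real.pi_gt_three; linarith
    have hinv0 : 0 < 1/(2*Real.pi) := by positivity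
    have hmt : 0 ≤ mu J - ε * l := by
      have h9 : ε * l ≤ 1/(8*Real.pi) * l := mul_le_mul_of_nonneg_right hε2 hlogpos.le
      have h10 : 1/(8*Real.pi) = 1/4 * (1/(2*Real.pi)) := by field_simp; norm_num
      rw [h10] at h9
      have h11 : 1/(2*Real.pi) * (l - 2) ≥ 1/(2*Real.pi) * (1/4 * l) := by
        apply mul_le_mul_of_nonneg_left _ hinv0.le
        have := Real.pi_gt_three
        linarith
      linarith
    have hb := bounds hW N J hJ (L (N+1)) hp (ε*l) (2 * Real.exp (-c * l)) (by positivity) (by positivity)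
      hmt hδ e he
    have hcr := bound_crude hW N (L (N+1)) hp e he
    rw [← hF] at hb hcr
    have hlN : Real.log (N:ℝ) ≤ l := by
      rcases Nat.eq_zero_or_pos N with h0 | h0
      · rw [h0]; simp; linarith
      · apply Real.log_le_log (by exact_mod_cast h0)
        push_cast; linarith
    -- eta
    set η := e * (2 * Real.exp (-c * l) * (4/((N:ℝ)+1-J))) with hη
    have hη0 : 0 ≤ η := by
      have : (0:ℝ) < (N:ℝ)+1-J := by
        have : (J:ℝ) ≤ N := by exact_mod_cast hJ
        linarith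
      have := hcr.1
      positivity
    have hηle : η ≤ 64/κ * ((5+4*l) * Real.exp (-c*l)) := by
      have hNJ : ((N+1:ℕ):ℝ)/2 ≤ (N:ℝ)+1-J := by push_cast at hJr ⊢; linarith
      have hNJp : (0:ℝ) < ((N+1:ℕ):ℝ)/2 := by linarith
      have h12 : 4/((N:ℝ)+1-J) ≤ 8/((N+1:ℕ):ℝ) := by
        calc 4/((N:ℝ)+1-J) ≤ 4/(((N+1:ℕ):ℝ)/2) := div_le_div_of_nonneg_left (by norm_num) hNJp hNJ
          _ = 8/((N+1:ℕ):ℝ) := by field_simp; norm_num
      have h13 : e * κ ≤ 2 * ((N+1:ℕ):ℝ) * (5+4*l) := by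
        have h14 : F * e ≤ 5 + 4*l := by linarith [hcr.2]
        have h15 : κ/2 * e ≤ ((N+1:ℕ):ℝ) * F * e := mul_le_mul_of_nonneg_right h3.le hcr.1
        have h16 : ((N+1:ℕ):ℝ) * F * e ≤ ((N+1:ℕ):ℝ) * (5+4*l) := by
          rw [mul_assoc]; exact mul_le_mul_of_nonneg_left h14 hn0.le
        linarith
      have h17 : e ≤ 2 * ((N+1:ℕ):ℝ) * (5+4*l) / κ := by
        rw [le_div_iff₀ hκ]; exact h13
      calc η ≤ (2 * ((N+1:ℕ):ℝ) * (5+4*l) / κ) * (2 * Real.exp (-c * l) * (8/((N+1:ℕ):ℝ))) := by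
            rw [hη]
            apply mul_le_mul h17 _ _ _
            · apply mul_le_mul_of_nonneg_left h12 (by positivity)
            · have : (0:ℝ) < (N:ℝ)+1-J := by linarith
              positivity
            · have : 0 ≤ 5+4*l := by linarith
              positivity
        _ = 32/κ * ((5+4*l) * Real.exp (-c*l)) := by
            have : ((N+1:ℕ):ℝ) ≠ 0 := hn0.ne'
            field_simp
            ring
        _ ≤ 64/κ * ((5+4*l) * Real.exp (-c*l)) := by
            apply mul_le_mul_of_nonneg_right _ _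
            · apply div_le_div_of_nonneg_right (by norm_num) hκ.le
            · have : 0 ≤ 5+4*l := by linarith
              positivity
    have hηlog : η * (5 + 4 * l) < min ε 1 := by
      have h18 : 0 ≤ 5+4*l := by linarith
      calc η * (5+4*l) ≤ (64/κ * ((5+4*l) * Real.exp (-c*l))) * (5+4*l) :=
            mul_le_mul_of_nonneg_right hηle h18
        _ = 64/κ * ((5+4*l)^2 * Real.exp (-c*l)) := by ring
        _ < min ε 1 := h1
    have hη5 : η < ε := by
      have h19 : η * 1 ≤ η * (5+4*l) := mul_le_mul_of_nonneg_left (by linarith) hη0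
      have := lt_of_lt_of_le hηlog (min_le_left ε 1)
      linarith
    have hη6 : η * (5+4*l) < 1 := lt_of_lt_of_le hηlog (min_le_right ε 1)
    have hR : 4 * ((N:ℝ) - J)/((J:ℝ)+1) ≤ 4 := by
      rw [div_le_iff₀ (by positivity)]
      push_cast at hJr2
      linarith
    have hinvl : 8 * l⁻¹ < ε := h2
    have h8l : 8 < ε * l := by
      have := mul_lt_mul_of_pos_right hinvl hlogpos
      rwa [mul_assoc, inv_mul_cancel₀ hlogpos.ne', mul_one] at this
    rw [Real.dist_eq, abs_lt]
    constructor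
    · -- lower
      have hlow := hb.2
      have h20 : (mu J - ε*l) * (1 - η) ≥ (mu J - ε*l) * (1-ε) :=
        mul_le_mul_of_nonneg_left (by linarith) hmt
      have h21 : mu J - ε * l ≥ 1/(2*Real.pi) * (l - 2) - ε*l := by linarith
      have h22 : 1/(2*Real.pi) * 2 ≤ 1 := by linarith
      have h23 : mu J - ε * l ≤ l := by
        have : 1/(2*Real.pi) * (l+3) ≤ 1/6 * (l+3) := mul_le_mul_of_nonneg_right hinv2 (by linarith)
        have : 0 < ε * l := by positivity
        linarith
      have h24 : (mu J - ε*l) * (1-ε) ≥ mu J - ε*l - ε * l := by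
        have : ε * (mu J - ε*l) ≤ ε * l := mul_le_mul_of_nonneg_left h23 hε0.le
        linarith
      have h25 : F * e ≥ 1/(2*Real.pi) * l - 3 * (ε*l) := by
        have : 1/(2*Real.pi) * (l-2) = 1/(2*Real.pi) * l - 1/(2*Real.pi) * 2 := by ring
        linarith
      have h26 : F * e / l ≥ 1/(2*Real.pi) - 3*ε := by
        rw [ge_iff_le, le_div_iff₀ hlogpos]
        linarith
      linarith
    · -- upper
      have hup := hb.1
      have h30 : η * (5 + 4 * Real.log N) ≤ η * (5 + 4*l) := by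
        apply mul_le_mul_of_nonneg_left _ hη0
        linarith
      have h31 : F * e ≤ 1/(2*Real.pi) * l + 2 * (ε * l) := by
        have : 1/(2*Real.pi) * (l+3) = 1/(2*Real.pi) * l + 1/(2*Real.pi) * 3 := by ring
        linarith
      have h32 : F * e / l ≤ 1/(2*Real.pi) + 2*ε := by
        rw [div_le_iff₀ hlogpos]
        linarith
      linarith
  obtain ⟨n0, hn0⟩ := eventually_atTop.mp hfinal
  exact ⟨n0, fun n hn => hn0 n hn.le⟩

theorem asymp {P : Measure Ω} [IsProbabilityMeasure P] {X : ℕ → Ω → ℤ} (hW : Walk P X)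
    (L : ℕ → ℤ) (hpar : ∀ᶠ n : ℕ in atTop, (L n - n) % 2 = 0) {μ : ℝ} (hμ : 0 < μ)
    (hL : Tendsto (fun n : ℕ => (L n : ℝ)/√n) atTop (𝓝 μ)) :
    (∀ᶠ n : ℕ in atTop, (∑' m, P (QQ X n (L n) m)) ≠ ⊤) ∧
    Tendsto (fun n : ℕ => (∑' m, P (QQ X n (L n) m)).toReal / (n * Real.log n)) atTop
      (𝓝 (Real.exp (μ^2/2) / (2 * √(2*Real.pi) * μ))) := by
  have hpi := Real.pi_pos
  have hf := nf_tendsto L hpar hμ hL
  have hκ : 0 < μ * (√(2/Real.pi) * Real.exp (-μ^2/2)) := by positivity
  have h1 := key_asymp hW L _ hκ hf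
  have hev : ∀ᶠ n : ℕ in atTop, 0 < (n:ℝ) * f n (L n) := hf.eventually_const_lt hκ
  constructor
  · filter_upwards [hev, eventually_gt_atTop 0] with n hn hn0
    obtain ⟨N, rfl⟩ : ∃ N, n = N + 1 := ⟨n - 1, by omega⟩
    apply ET_fin hW
    have hn' : (0:ℝ) < ((N+1:ℕ):ℝ) := by exact_mod_cast hn0
    exact (pos_iff_pos_of_mul_pos hn).mp hn'
  · have h2 := h1.div hf hκ.ne'
    have e : 1/(2*Real.pi) / (μ * (√(2/Real.pi) * Real.exp (-μ^2/2))) =
        Real.exp (μ^2/2) / (2 * √(2*Real.pi) * μ) := by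
      have e1 : Real.exp (-μ^2/2) = (Real.exp (μ^2/2))⁻¹ := by
        rw [← Real.exp_neg]; congr 1; ring
      have e2 : √(2*Real.pi) = Real.pi * √(2/Real.pi) := by
        have : 2*Real.pi = Real.pi^2 * (2/Real.pi) := by field_simp
        rw [this, Real.sqrt_mul (by positivity), Real.sqrt_sq hpi.le]
      rw [e1, e2]
      have := Real.exp_pos (μ^2/2)
      have h3 : 0 < √(2/Real.pi) := by positivity
      field_simp
    rw [e] at h2
    refine h2.congr' ?_
    filter_upwards [hev, eventually_gt_atTop 1] with n hn hn0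
    have hn' : (0:ℝ) < n := by
      have : 0 < n := by omega
      exact_mod_cast this
    have hfp : 0 < f n (L n) := (pos_iff_pos_of_mul_pos hn).mp hn'
    have hl : 0 < Real.log (n:ℝ) := Real.log_pos (by exact_mod_cast hn0)
    simp only [Pi.div_apply]
    field_simp

end Pool.Agent.R974.FP
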